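import Pool.Agent.H522R3.UT.T3

set_option autoImplicit false

open Set Filter Topology Metric MeasureTheory

namespace Pool.Agent.H522R3.UT

variable {n : ℕ}

/-- contact points are close to the vertices for large openings -/
theorem contact_close {Ω : Set (Cn n)} {φ : Cn n → EReal} {x0 : Cn n} {R : ℝ}
    (husc : UpperSemicontinuousOn φ (closedBall x0 R)) (htop : ∀ x ∈ closedBall x0 R, φ x ≠ ⊤)
    (hdense : ∀ x ∈ Ω, ∀ r : ℝ, 0 < r → ∃ y ∈ ball x r, y ∈ Ω ∧ φ y ≠ ⊥) (hR : 0 < R)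
    (hsub : closedBall x0 R ⊆ Ω) {δ : ℝ} (hδ : 0 < δ) (hδR : δ ≤ R / 8) :
    ∃ M : ℝ, 0 < M ∧ ∀ y ∈ closedBall x0 (R / 2), ∀ x ∈ contact φ M (closedBall x0 R) {y},
      ‖x - y‖ ≤ 2 * δ := by
  obtain ⟨z0, hz0, hmax⟩ := husc.exists_isMaxOn ⟨x0, mem_closedBall_self hR.le⟩
    (isCompact_closedBall x0 R)
  obtain ⟨S, hS⟩ : ∃ S : ℝ, ∀ x ∈ closedBall x0 R, φ x ≤ (S : EReal) := by
    refine ⟨(φ z0).toReal, fun x hx => (hmax hx).trans ?_⟩
    exact EReal.le_coe_toReal (htop z0 hz0)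
  have key : ∃ M0 : ℝ, ∀ M : ℝ, M0 ≤ M → 0 < M → ∀ y ∈ closedBall x0 (R / 2),
      ∀ x ∈ contact φ M (closedBall x0 R) {y}, ‖x - y‖ ≤ 2 * δ := by
    refine (isCompact_closedBall x0 (R / 2)).induction_on
      (p := fun s => ∃ M0 : ℝ, ∀ M : ℝ, M0 ≤ M → 0 < M → ∀ y ∈ s,
        ∀ x ∈ contact φ M (closedBall x0 R) {y}, ‖x - y‖ ≤ 2 * δ) ?_ ?_ ?_ ?_
    · exact ⟨0, fun M _ _ y hy => absurd hy (notMem_empty y)⟩
    · rintro s t hst ⟨M0, h⟩
      exact ⟨M0, fun M h1 h2 y hy => h M h1 h2 y (hst hy)⟩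
    · rintro s t ⟨M0, h⟩ ⟨M1, h'⟩
      refine ⟨max M0 M1, fun M h1 h2 y hy => ?_⟩
      rcases hy with hy | hy
      · exact h M ((le_max_left _ _).trans h1) h2 y hy
      · exact h' M ((le_max_right _ _).trans h1) h2 y hy
    · intro y0 hy0
      have hy0K : y0 ∈ closedBall x0 R := closedBall_subset_closedBall (by linarith) hy0
      obtain ⟨p, hp, hpΩ, hpb⟩ := hdense y0 (hsub hy0K) δ hδ
      have hpK : p ∈ closedBall x0 R := by
        rw [mem_closedBall] at hy0 ⊢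
        rw [mem_ball] at hp
        have := dist_triangle p y0 x0
        linarith
      refine ⟨ball p δ, mem_nhdsWithin_of_mem_nhds (isOpen_ball.mem_nhds ?_),
        2 * (S - (φ p).toReal) / (3 * δ ^ 2), fun M hM1 hM2 y hy x hx => ?_⟩
      · rw [mem_ball, dist_comm]; exact hp
      obtain ⟨hxK, y', hy', hc⟩ := hx
      rw [mem_singleton_iff] at hy'
      subst hy'
      have h1 := hc p hpK
      have hpc : φ p = ((φ p).toReal : EReal) := (EReal.coe_toReal (htop p hpK) hpb).symm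
      have h2 : φ x + ((M / 2 * (‖p - y'‖ ^ 2 - ‖x - y'‖ ^ 2) : ℝ) : EReal) ≤
          (S : EReal) + ((M / 2 * (‖p - y'‖ ^ 2 - ‖x - y'‖ ^ 2) : ℝ) : EReal) :=
        add_le_add (hS x hxK) le_rfl
      have h3 := h1.trans h2
      rw [hpc, ← EReal.coe_add, EReal.coe_le_coe_iff] at h3
      have h4 : ‖p - y'‖ ^ 2 ≤ δ ^ 2 := by
        have : ‖p - y'‖ < δ := by
          rw [mem_ball, dist_comm, dist_eq_norm] at hy; exact hy
        nlinarith [norm_nonneg (p - y')]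
      have h5 : 2 * (S - (φ p).toReal) ≤ M * (3 * δ ^ 2) := by
        rwa [div_le_iff₀ (by positivity)] at hM1
      have h6 : ‖x - y'‖ ^ 2 ≤ (2 * δ) ^ 2 := by
        by_contra hcon
        push Not at hcon
        nlinarith [mul_lt_mul_of_pos_left hcon hM2, mul_le_mul_of_nonneg_left h4 hM2.le]
      exact abs_le_of_sq_le_sq' h6 (by positivity) |>.2
  obtain ⟨M0, hM0⟩ := key
  exact ⟨max M0 1, by positivity, hM0 _ (le_max_left _ _) (by positivity)⟩

theorem null_main (h2 : T2) (h3 : T3) (h4 : T4) (h5 : T5) (h6 : T6) (h7 : T7) (h8 : T8) (h9 : T9)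
    (Ω : Set (Cn n)) (φ : Cn n → EReal) (hΩ : IsOpen Ω) (hconn : IsPreconnected Ω)
    (hφ : IsPSH Ω φ) (hne : ∃ z ∈ Ω, φ z ≠ ⊥) :
    volume {z | z ∈ Ω ∧ ¬ HasUpperTest Ω φ z} = 0 := by
  have hdense := h8 n Ω φ hΩ hconn hφ hne
  refine measure_null_of_locally_null _ ?_
  rintro x0 ⟨hx0, -⟩
  obtain ⟨ρ, hρ, hball⟩ := Metric.isOpen_iff.1 hΩ x0 hx0
  obtain ⟨R, hR, hsub2⟩ : ∃ R : ℝ, 0 < R ∧ closedBall x0 (2 * R) ⊆ Ω := by
    refine ⟨ρ / 4, by positivity, fun x hx => hball ?_⟩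
    rw [mem_closedBall] at hx
    rw [mem_ball]; linarith
  have hsub : closedBall x0 R ⊆ Ω := (closedBall_subset_closedBall (by linarith)).trans hsub2
  have husc : UpperSemicontinuousOn φ (closedBall x0 R) := hφ.2.1.mono hsub
  have htop : ∀ x ∈ closedBall x0 R, φ x ≠ ⊤ := fun x hx => hφ.1 x (hsub hx)
  have hnb : ∃ x ∈ closedBall x0 R, φ x ≠ ⊥ := by
    obtain ⟨y, hy, -, hyb⟩ := hdense x0 hx0 R hR
    exact ⟨y, ball_subset_closedBall hy, hyb⟩
  obtain ⟨ψ, hψ⟩ := h6 h4 h5 n Ω φ hφ x0 R hR hsub2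
  refine ⟨{z | z ∈ Ω ∧ ¬ HasUpperTest Ω φ z} ∩ closedBall x0 (R / 2),
    inter_mem_nhdsWithin _ (closedBall_mem_nhds x0 (by positivity)), ?_⟩
  set E0 := {z | z ∈ Ω ∧ ¬ HasUpperTest Ω φ z} ∩ closedBall x0 (R / 2) with hE0
  -- inequality for each δ
  have hδ : ∀ δ : ℝ, 0 < δ → δ ≤ R / 8 →
      volume E0 + volume (closedBall x0 (R / 2)) ≤ volume (closedBall x0 (R / 2 + 2 * δ)) := by
    intro δ hδ0 hδ1
    obtain ⟨M, hM, hclose⟩ := contact_close husc htop hdense hR hsub hδ0 hδ1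
    set C := contact φ M (closedBall x0 R) (closedBall x0 (R / 2)) with hC
    have hCsub : C ⊆ closedBall x0 (R / 2 + 2 * δ) := by
      rintro x ⟨hxK, y, hy, hc⟩
      have := hclose y hy x ⟨hxK, y, rfl, hc⟩
      rw [mem_closedBall, dist_eq_norm] at hy ⊢
      calc ‖x - x0‖ = ‖(x - y) + (y - x0)‖ := by congr 1; abel
        _ ≤ ‖x - y‖ + ‖y - x0‖ := norm_add_le _ _
        _ ≤ R / 2 + 2 * δ := by linarith
    have hCball : C ⊆ ball x0 R := hCsub.trans (closedBall_subset_ball (by linarith))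
    obtain ⟨hCc, hCt⟩ := h9 n Ω φ x0 R M hR hM husc htop hnb hsub (closedBall x0 (R / 2))
      (isCompact_closedBall _ _)
    have hvol : volume (closedBall x0 (R / 2)) ≤ volume C :=
      h7 h2 h3 n φ x0 R hR husc htop hnb ψ hψ M hM _ (isCompact_closedBall _ _) hCball
    have hdisj : Disjoint E0 C := by
      rw [disjoint_left]
      rintro x ⟨⟨-, hx⟩, -⟩ hxC
      exact hx (hCt x hxC (hCball hxC))
    calc volume E0 + volume (closedBall x0 (R / 2)) ≤ volume E0 + volume C := by gcongr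
      _ = volume (E0 ∪ C) := (measure_union hdisj hCc.isClosed.measurableSet).symm
      _ ≤ volume (closedBall x0 (R / 2 + 2 * δ)) := by
          refine measure_mono (union_subset ?_ hCsub)
          exact inter_subset_right.trans (closedBall_subset_closedBall (by linarith))
  have hlim : Tendsto (fun δ : ℝ => volume (closedBall x0 (R / 2 + 2 * δ))) (𝓝[>] 0)
      (𝓝 (volume (closedBall x0 (R / 2)))) := by
    have h1 : ∀ δ : ℝ, 0 < δ → volume (closedBall x0 (R / 2 + 2 * δ)) =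
        ENNReal.ofReal ((R / 2 + 2 * δ) ^ Module.finrank ℝ (Cn n)) * volume (ball (0 : Cn n) 1) :=
      fun δ hδ => Measure.addHaar_closedBall _ _ (by positivity)
    rw [Measure.addHaar_closedBall _ _ (by positivity)]
    have h2 : Tendsto (fun δ : ℝ => ENNReal.ofReal ((R / 2 + 2 * δ) ^ Module.finrank ℝ (Cn n)) *
        volume (ball (0 : Cn n) 1)) (𝓝[>] 0)
        (𝓝 (ENNReal.ofReal ((R / 2) ^ Module.finrank ℝ (Cn n)) * volume (ball (0 : Cn n) 1))) := by
      refine ENNReal.Tendsto.mul_const ?_ (Or.inr measure_ball_lt_top.ne)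
      refine ENNReal.tendsto_ofReal ?_
      have hc : Continuous (fun δ : ℝ => (R / 2 + 2 * δ) ^ Module.finrank ℝ (Cn n)) := by fun_prop
      have := hc.tendsto 0
      simp only [mul_zero, add_zero] at this
      exact this.mono_left nhdsWithin_le_nhds
    refine h2.congr' ?_
    filter_upwards [self_mem_nhdsWithin] with δ hδ'
    exact (h1 δ hδ').symm
  have hfin : volume E0 + volume (closedBall x0 (R / 2)) ≤ volume (closedBall x0 (R / 2)) := by
    refine ge_of_tendsto hlim ?_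
    filter_upwards [Ioc_mem_nhdsGT (show (0 : ℝ) < R / 8 by positivity)] with δ hδ'
    exact hδ δ hδ'.1 hδ'.2
  have hlt : volume (closedBall x0 (R / 2)) ≠ ⊤ := measure_closedBall_lt_top.ne
  have h0 : volume E0 + volume (closedBall x0 (R / 2)) ≤ 0 + volume (closedBall x0 (R / 2)) := by
    rwa [zero_add]
  have := (ENNReal.add_le_add_iff_right hlt).1 h0
  exact le_antisymm this (zero_le)

end Pool.Agent.H522R3.UT
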