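import Mathlib

/-! Statements for project H522-PSH (MP_725b87_an, Q1). -/

set_option autoImplicit false

open Set Filter Topology Metric MeasureTheory

namespace Pool.Agent.H522R3.UT

/-- complex n-space with its Hermitian norm -/
abbrev Cn (n : ℕ) : Type := EuclideanSpace ℂ (Fin n)

/-- The point z + e^{iθ} w. -/
noncomputable def circ {n : ℕ} (z w : Cn n) (θ : ℝ) : Cn n :=
  z + Complex.exp ((θ : ℂ) * Complex.I) • w

/-- mean of a real function over the circle z + e^{iθ} w -/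
noncomputable def mean {n : ℕ} (f : Cn n → ℝ) (z w : Cn n) : ℝ :=
  (2 * Real.pi)⁻¹ * ∫ θ in (0 : ℝ)..(2 * Real.pi), f (circ z w θ)

def IsPSH {n : ℕ} (Ω : Set (Cn n)) (φ : Cn n → EReal) : Prop :=
  (∀ z ∈ Ω, φ z ≠ ⊤) ∧ UpperSemicontinuousOn φ Ω ∧
  ∀ z w : Cn n, (∀ ζ : ℂ, ‖ζ‖ ≤ 1 → z + ζ • w ∈ Ω) →
    ∀ h : ℝ → ℝ, Continuous h → (∀ θ ∈ Icc 0 (2 * Real.pi), φ (circ z w θ) ≤ (h θ : EReal)) →
      φ z ≤ (((2 * Real.pi)⁻¹ * ∫ θ in (0 : ℝ)..(2 * Real.pi), h θ : ℝ) : EReal)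

def HasUpperTest {n : ℕ} (Ω : Set (Cn n)) (φ : Cn n → EReal) (z : Cn n) : Prop :=
  ∃ (V : Set (Cn n)) (q : Cn n → ℝ), IsOpen V ∧ V ⊆ Ω ∧ z ∈ V ∧ ContDiffOn ℝ 2 q V ∧
    ∀ y ∈ V, φ y - (q y : EReal) ≤ φ z - (q z : EReal)

/-- (T1) linear algebra: det of a symmetric positive operator with trace at most the dimension.
Hint: eigenvalues, `∏ λ_i ≤ ∏ exp (λ_i - 1) = exp (∑ λ_i - N) ≤ 1`. -/
def T1 : Prop := ∀ (E : Type) [NormedAddCommGroup E] [InnerProductSpace ℝ E]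
    [FiniteDimensional ℝ E] (L : E →L[ℝ] E), (L : E →ₗ[ℝ] E).IsSymmetric →
    (∀ v, 0 ≤ inner ℝ (L v) v) → LinearMap.trace ℝ E (L : E →ₗ[ℝ] E) ≤ Module.finrank ℝ E →
    |L.det| ≤ 1

/-- (T2) a C² function with the sub-mean property at x for small discs has nonnegative Levi form. -/
def T2 : Prop := ∀ (n : ℕ) (ψ : Cn n → ℝ), ContDiff ℝ 2 ψ → ∀ (x w : Cn n) (r : ℝ), 0 < r →
    (∀ t : ℝ, 0 < t → t < r → ψ x ≤ mean ψ x (t • w)) →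
    0 ≤ fderiv ℝ (fderiv ℝ ψ) x w w +
      fderiv ℝ (fderiv ℝ ψ) x (Complex.I • w) (Complex.I • w)

/-- (T3) area inequality for contact points: if the Levi form of the C² function ψ is nonnegative
at the points of the measurable set A and every y in Y is the vertex of a paraboloid touching ψ from
above (locally) at a point of A, then |Y| ≤ |A|.  Proof: Y ⊆ f(A'), A' the points of A with
D²ψ ≤ M, f(x) = x - ∇ψ(x)/M, `addHaar_image_le_lintegral_abs_det_fderiv`, and |det Df| ≤ 1 on A' by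
T1; trace of the Hessian: 2 trace H = ∑ over an orthonormal basis b and over i b. -/
def T3 : Prop := ∀ (n : ℕ) (ψ : Cn n → ℝ), ContDiff ℝ 2 ψ → ∀ (M : ℝ), 0 < M →
    ∀ (A Y : Set (Cn n)), MeasurableSet A →
    (∀ x ∈ A, ∀ w : Cn n, 0 ≤ fderiv ℝ (fderiv ℝ ψ) x w w +
      fderiv ℝ (fderiv ℝ ψ) x (Complex.I • w) (Complex.I • w)) →
    (∀ y ∈ Y, ∃ x ∈ A, IsLocalMax (fun w => ψ w - M / 2 * ‖w - y‖ ^ 2) x) →
    volume Y ≤ volume A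

/-- (T4) a bounded upper semicontinuous function on the line is an L¹ limit of continuous majorants
on [0, 2π].  Proof: h_k(θ) = sup_s (g s - k |θ - s|) is k-Lipschitz and decreases to g. -/
def T4 : Prop := ∀ (g : ℝ → ℝ) (m S : ℝ), UpperSemicontinuous g → (∀ θ, m ≤ g θ) →
    (∀ θ, g θ ≤ S) → ∀ ε : ℝ, 0 < ε → ∃ h : ℝ → ℝ, Continuous h ∧ (∀ θ, g θ ≤ h θ) ∧
      ∫ θ in (0 : ℝ)..(2 * Real.pi), h θ ≤ (∫ θ in (0 : ℝ)..(2 * Real.pi), g θ) + ε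

/-- (T5) mollification: f bounded and upper semicontinuous on the whole space with the sub-mean
property for discs in the ball of radius 2R.  Then for every ε in (0, R/2) there is a smooth ψ with
ψ ≥ f on the closed R-ball, ψ x ≤ sup of f on the ball of radius ε about x, and the sub-mean property
for discs in the R-ball.  Proof: convolution with c (smoothTransition (ε² - |t|²)), Fubini. -/
def T5 : Prop := ∀ (n : ℕ) (f : Cn n → ℝ) (m S : ℝ) (x0 : Cn n) (R : ℝ), 0 < R →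
    UpperSemicontinuous f → (∀ x, m ≤ f x) → (∀ x, f x ≤ S) →
    (∀ z w : Cn n, (∀ ζ : ℂ, ‖ζ‖ ≤ 1 → z + ζ • w ∈ closedBall x0 (2 * R)) → f z ≤ mean f z w) →
    ∀ ε : ℝ, 0 < ε → ε < R / 2 → ∃ ψ : Cn n → ℝ, ContDiff ℝ 2 ψ ∧
      (∀ x ∈ closedBall x0 R, f x ≤ ψ x) ∧
      (∀ x, ∀ c : ℝ, (∀ y ∈ ball x ε, f y ≤ c) → ψ x ≤ c) ∧
      (∀ z w : Cn n, (∀ ζ : ℂ, ‖ζ‖ ≤ 1 → z + ζ • w ∈ closedBall x0 R) → ψ z ≤ mean ψ z w)

/-- Smooth approximation of a psh function near x0 (consequence of T4, T5, with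
f = max (φ, -j) on the closed 2R-ball and f = -j outside). -/
def Approx {n : ℕ} (φ : Cn n → EReal) (x0 : Cn n) (R : ℝ) (ψ : ℕ → Cn n → ℝ) : Prop :=
  (∀ j, ContDiff ℝ 2 (ψ j)) ∧
  (∀ j, ∀ x ∈ closedBall x0 R, φ x ≤ (ψ j x : EReal)) ∧
  (∀ x ∈ closedBall x0 R, ∀ c : ℝ, φ x < (c : EReal) →
    ∃ r : ℝ, 0 < r ∧ ∃ J : ℕ, ∀ j ≥ J, ∀ x' ∈ closedBall x0 R, dist x' x < r → ψ j x' ≤ c) ∧
  (∀ j, ∀ z w : Cn n, (∀ ζ : ℂ, ‖ζ‖ ≤ 1 → z + ζ • w ∈ closedBall x0 R) →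
    ψ j z ≤ mean (ψ j) z w)

/-- (T6) existence of the approximation, from T4 and T5. -/
def T6 : Prop := T4 → T5 → ∀ (n : ℕ) (Ω : Set (Cn n)) (φ : Cn n → EReal), IsPSH Ω φ →
    ∀ (x0 : Cn n) (R : ℝ), 0 < R → closedBall x0 (2 * R) ⊆ Ω → ∃ ψ, Approx φ x0 R ψ

/-- contact points in K of paraboloids of opening M with vertices in Y -/
def contact {n : ℕ} (φ : Cn n → EReal) (M : ℝ) (K Y : Set (Cn n)) : Set (Cn n) :=
  {x | x ∈ K ∧ ∃ y ∈ Y, ∀ w ∈ K,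
    φ w ≤ φ x + ((M / 2 * (‖w - y‖ ^ 2 - ‖x - y‖ ^ 2) : ℝ) : EReal)}

/-- (T7) main inequality |Y| ≤ |contact|, from T3 and T2, by compactness. -/
def T7 : Prop := T2 → T3 → ∀ (n : ℕ) (φ : Cn n → EReal) (x0 : Cn n) (R : ℝ), 0 < R →
    UpperSemicontinuousOn φ (closedBall x0 R) → (∀ x ∈ closedBall x0 R, φ x ≠ ⊤) →
    (∃ x ∈ closedBall x0 R, φ x ≠ ⊥) →
    ∀ ψ, Approx φ x0 R ψ → ∀ (M : ℝ), 0 < M → ∀ Y : Set (Cn n), IsCompact Y →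
    contact φ M (closedBall x0 R) Y ⊆ ball x0 R →
    volume Y ≤ volume (contact φ M (closedBall x0 R) Y)

/-- (T8) {φ > -∞} is dense in a connected Ω. -/
def T8 : Prop := ∀ (n : ℕ) (Ω : Set (Cn n)) (φ : Cn n → EReal), IsOpen Ω → IsPreconnected Ω →
    IsPSH Ω φ → (∃ z ∈ Ω, φ z ≠ ⊥) → ∀ x ∈ Ω, ∀ r : ℝ, 0 < r → ∃ y ∈ ball x r, y ∈ Ω ∧ φ y ≠ ⊥

/-- (T9) the contact set is compact, consists of points with an upper test function when it is inside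
the open ball. -/
def T9 : Prop := ∀ (n : ℕ) (Ω : Set (Cn n)) (φ : Cn n → EReal) (x0 : Cn n) (R M : ℝ), 0 < R → 0 < M →
    UpperSemicontinuousOn φ (closedBall x0 R) → (∀ x ∈ closedBall x0 R, φ x ≠ ⊤) →
    (∃ x ∈ closedBall x0 R, φ x ≠ ⊥) → closedBall x0 R ⊆ Ω →
    ∀ Y : Set (Cn n), IsCompact Y →
    IsCompact (contact φ M (closedBall x0 R) Y) ∧
    ∀ x ∈ contact φ M (closedBall x0 R) Y, x ∈ ball x0 R → HasUpperTest Ω φ x

end Pool.Agent.H522R3.UT
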