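import Pool.Agent.H522R3.UT.Stmts

/-! Proof of (T1). -/

namespace Pool.Agent.H522R3.UT

theorem T1_proof : T1 := by
  intro E _ _ _ L hL hpos htr
  have hn : Module.finrank ℝ E = Module.finrank ℝ E := rfl
  have hdet : L.det = ∏ i, hL.eigenvalues hn i := by
    have h := hL.det_eq_prod_eigenvalues hn
    simpa using h
  have htr' : LinearMap.trace ℝ E (L : E →ₗ[ℝ] E) = ∑ i, hL.eigenvalues hn i := by
    have h := hL.trace_eq_sum_eigenvalues hn
    simpa using h
  have hev : ∀ i, 0 ≤ hL.eigenvalues hn i := by
    intro i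
    have h1 := hL.apply_eigenvectorBasis hn i
    have h2 := hpos (hL.eigenvectorBasis hn i)
    have h3 : L (hL.eigenvectorBasis hn i) = hL.eigenvalues hn i • hL.eigenvectorBasis hn i := by
      exact h1
    rw [h3, real_inner_smul_left, real_inner_self_eq_norm_sq,
      (hL.eigenvectorBasis hn).orthonormal.1 i] at h2
    simpa using h2
  rw [hdet, abs_of_nonneg (Finset.prod_nonneg fun i _ => hev i)]
  calc ∏ i, hL.eigenvalues hn i ≤ ∏ i, Real.exp (hL.eigenvalues hn i - 1) := by
        refine Finset.prod_le_prod (fun i _ => hev i) fun i _ => ?_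
        have := Real.add_one_le_exp (hL.eigenvalues hn i - 1)
        linarith
    _ = Real.exp (∑ i, (hL.eigenvalues hn i - 1)) := (Real.exp_sum _ _).symm
    _ ≤ Real.exp 0 := by
        refine Real.exp_le_exp.2 ?_
        rw [Finset.sum_sub_distrib, ← htr']
        simp only [Finset.sum_const, Finset.card_univ, Fintype.card_fin, nsmul_eq_mul, mul_one]
        linarith
    _ = 1 := Real.exp_zero

end Pool.Agent.H522R3.UT
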