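import Pool.Agent.H522R3.UT.Stmts

set_option autoImplicit false

open Set Filter Topology Metric MeasureTheory

namespace Pool.Agent.H522R3.UT

namespace T2aux

variable {n : ℕ}

theorem exp_smul (w : Cn n) (θ : ℝ) :
    Complex.exp ((θ : ℂ) * Complex.I) • w =
      Real.cos θ • w + Real.sin θ • (Complex.I • w) := by
  have h1 : Complex.exp ((θ : ℂ) * Complex.I) =
      ((Real.cos θ : ℝ) : ℂ) + ((Real.sin θ : ℝ) : ℂ) * Complex.I := by
    rw [Complex.exp_mul_I, Complex.ofReal_cos, Complex.ofReal_sin]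
  rw [h1, add_smul, mul_smul, Complex.coe_smul, Complex.coe_smul]

theorem norm_exp_smul (w : Cn n) (θ : ℝ) :
    ‖Complex.exp ((θ : ℂ) * Complex.I) • w‖ = ‖w‖ := by
  rw [norm_smul, Complex.norm_exp_ofReal_mul_I, one_mul]

/-- Taylor estimate along a segment -/
theorem taylor {ψ : Cn n → ℝ} (hψ : ContDiff ℝ 2 ψ) (x : Cn n) {ε δ : ℝ} (hε : 0 < ε)
    (hδ : ∀ y, dist y x < δ → ‖fderiv ℝ ψ y - fderiv ℝ ψ x -
      fderiv ℝ (fderiv ℝ ψ) x (y - x)‖ ≤ ε * ‖y - x‖) (u : Cn n) {t : ℝ} (ht : 0 < t)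
    (htu : t * ‖u‖ < δ) :
    |ψ (x + t • u) - ψ x - t * fderiv ℝ ψ x u - t ^ 2 / 2 * fderiv ℝ (fderiv ℝ ψ) x u u| ≤
      ε * t ^ 2 * ‖u‖ ^ 2 := by
  set H := fderiv ℝ (fderiv ℝ ψ) x with hH
  have hd : ∀ s ∈ Icc (0 : ℝ) t, HasDerivWithinAt
      (fun s : ℝ => ψ (x + s • u) - s * fderiv ℝ ψ x u - s ^ 2 / 2 * H u u)
      (fderiv ℝ ψ (x + s • u) u - fderiv ℝ ψ x u - s * H u u) (Icc 0 t) s := by
    intro s _
    apply HasDerivAt.hasDerivWithinAt
    have h1 : HasDerivAt (fun s : ℝ => x + s • u) u s := by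
      simpa using ((hasDerivAt_id s).smul_const u).const_add x
    have h2 : HasDerivAt (fun s : ℝ => ψ (x + s • u)) (fderiv ℝ ψ (x + s • u) u) s :=
      ((hψ.differentiable (by norm_num)).differentiableAt.hasFDerivAt).comp_hasDerivAt s h1
    have h3 : HasDerivAt (fun s : ℝ => s * fderiv ℝ ψ x u) (fderiv ℝ ψ x u) s := by
      simpa using (hasDerivAt_id s).mul_const (fderiv ℝ ψ x u)
    have h4 : HasDerivAt (fun s : ℝ => s ^ 2 / 2 * H u u) (s * H u u) s := by
      have h5 := (((hasDerivAt_id s).pow 2).div_const 2).mul_const (H u u)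
      refine h5.congr_deriv ?_
      simp
    exact (h2.sub h3).sub h4
  have hb : ∀ s ∈ Ico (0 : ℝ) t,
      ‖fderiv ℝ ψ (x + s • u) u - fderiv ℝ ψ x u - s * H u u‖ ≤ ε * t * ‖u‖ ^ 2 := by
    intro s hs
    have e1 : x + s • u - x = s • u := by abel
    have hn : ‖s • u‖ = s * ‖u‖ := by
      rw [norm_smul, Real.norm_eq_abs, abs_of_nonneg hs.1]
    have h1 : dist (x + s • u) x < δ := by
      rw [dist_eq_norm, e1, hn]
      exact lt_of_le_of_lt (mul_le_mul_of_nonneg_right hs.2.le (norm_nonneg _)) htu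
    have h2 := hδ _ h1
    rw [e1, hn] at h2
    have h3 : fderiv ℝ ψ (x + s • u) u - fderiv ℝ ψ x u - s * H u u =
        (fderiv ℝ ψ (x + s • u) - fderiv ℝ ψ x - H (s • u)) u := by
      simp
    rw [h3]
    refine ((fderiv ℝ ψ (x + s • u) - fderiv ℝ ψ x - H (s • u)).le_opNorm u).trans ?_
    calc _ ≤ ε * (s * ‖u‖) * ‖u‖ := mul_le_mul_of_nonneg_right h2 (norm_nonneg _)
      _ = s * (ε * ‖u‖ ^ 2) := by ring
      _ ≤ t * (ε * ‖u‖ ^ 2) := mul_le_mul_of_nonneg_right hs.2.le (by positivity)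
      _ = ε * t * ‖u‖ ^ 2 := by ring
  have h := norm_image_sub_le_of_norm_deriv_le_segment' hd hb t ⟨ht.le, le_rfl⟩
  rw [Real.norm_eq_abs] at h
  have e2 : ψ (x + t • u) - t * fderiv ℝ ψ x u - t ^ 2 / 2 * H u u -
      (ψ (x + (0 : ℝ) • u) - 0 * fderiv ℝ ψ x u - 0 ^ 2 / 2 * H u u) =
      ψ (x + t • u) - ψ x - t * fderiv ℝ ψ x u - t ^ 2 / 2 * H u u := by
    rw [zero_smul, add_zero]
    ring
  rw [e2] at h
  refine h.trans (le_of_eq ?_)
  ring

/-- the integral of a trigonometric polynomial -/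
theorem int_trig (p a b A B C e : ℝ) :
    ∫ θ in (0 : ℝ)..(2 * Real.pi), (p + (Real.cos θ * a + Real.sin θ * b) +
      (Real.cos θ ^ 2 * A + Real.cos θ * Real.sin θ * B + Real.sin θ ^ 2 * C) + e) =
      2 * Real.pi * p + Real.pi * (A + C) + 2 * Real.pi * e := by
  have hG : ∀ θ ∈ uIcc (0 : ℝ) (2 * Real.pi), HasDerivAt
      (fun θ : ℝ => p * θ + (a * Real.sin θ - b * Real.cos θ) +
        (A * ((θ + Real.sin θ * Real.cos θ) / 2) + B * (Real.sin θ ^ 2 / 2) +
          C * ((θ - Real.sin θ * Real.cos θ) / 2)) + e * θ)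
      (p + (Real.cos θ * a + Real.sin θ * b) +
      (Real.cos θ ^ 2 * A + Real.cos θ * Real.sin θ * B + Real.sin θ ^ 2 * C) + e) θ := by
    intro θ _
    have hs := Real.hasDerivAt_sin θ
    have hc := Real.hasDerivAt_cos θ
    have hi := hasDerivAt_id θ
    have hsc := hs.mul hc
    have h1 := (hi.const_mul p).add ((hs.const_mul a).sub (hc.const_mul b))
    have h2 := ((((hi.add hsc).div_const 2).const_mul A).add
      (((hs.pow 2).div_const 2).const_mul B)).add (((hi.sub hsc).div_const 2).const_mul C)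
    have h3 := (h1.add h2).add (hi.const_mul e)
    refine (h3.congr_deriv ?_)
    have hsq := Real.sin_sq_add_cos_sq θ
    have hcs : Real.cos θ ^ 2 = 1 - Real.sin θ ^ 2 := by linarith
    simp only [Nat.cast_ofNat]
    ring_nf
    rw [hcs]
    ring
  rw [intervalIntegral.integral_eq_sub_of_hasDerivAt hG]
  · simp only [Real.sin_two_pi, Real.cos_two_pi, Real.sin_zero, Real.cos_zero]
    ring
  · apply Continuous.intervalIntegrable
    fun_prop

end T2aux

open T2aux in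
theorem T2_proof : T2 := by
  intro n ψ hψ x w r hr hmean
  set H := fderiv ℝ (fderiv ℝ ψ) x with hH
  have hf1 : ContDiff ℝ 1 (fderiv ℝ ψ) := hψ.fderiv_right (by norm_num)
  have hHd : HasFDerivAt (fderiv ℝ ψ) H x :=
    (hf1.differentiable one_ne_zero).differentiableAt.hasFDerivAt
  have main : ∀ ε : ℝ, 0 < ε → 0 ≤ (H w w + H (Complex.I • w) (Complex.I • w)) / 4 +
      ε * ‖w‖ ^ 2 := by
    intro ε hε
    obtain ⟨δ, hδ0, hδ⟩ := Metric.eventually_nhds_iff.1 (hHd.isLittleO.def hε)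
    set t : ℝ := min (r / 2) (δ / (2 * (‖w‖ + 1))) with ht
    have hw1 : 0 < ‖w‖ + 1 := by positivity
    have ht0 : 0 < t := lt_min (by positivity) (by positivity)
    have htr : t < r := lt_of_le_of_lt (min_le_left _ _) (by linarith)
    have htw : t * ‖w‖ < δ := by
      have h1 : t * (2 * (‖w‖ + 1)) ≤ δ := by
        have := min_le_right (r / 2) (δ / (2 * (‖w‖ + 1)))
        rwa [← ht, le_div_iff₀ (by positivity)] at this
      have h2 := norm_nonneg w
      nlinarith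
    have hm := hmean t ht0 htr
    -- pointwise bound
    have hpt : ∀ θ : ℝ, ψ (circ x (t • w) θ) ≤
        ψ x + (Real.cos θ * (t * fderiv ℝ ψ x w) +
          Real.sin θ * (t * fderiv ℝ ψ x (Complex.I • w))) +
        (Real.cos θ ^ 2 * (t ^ 2 / 2 * H w w) +
          Real.cos θ * Real.sin θ * (t ^ 2 / 2 * (H w (Complex.I • w) + H (Complex.I • w) w)) +
          Real.sin θ ^ 2 * (t ^ 2 / 2 * H (Complex.I • w) (Complex.I • w))) +
        ε * t ^ 2 * ‖w‖ ^ 2 := by
      intro θ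
      set u := Complex.exp ((θ : ℂ) * Complex.I) • w with hu
      have e1 : circ x (t • w) θ = x + t • u := by
        rw [circ, hu, smul_comm]
      have hun : ‖u‖ = ‖w‖ := norm_exp_smul w θ
      have h1 := taylor hψ x hε (fun y hy => hδ hy) u ht0 (by rw [hun]; exact htw)
      rw [hun, ← hH] at h1
      have h2 := (abs_le.1 h1).2
      have e2 : fderiv ℝ ψ x u = Real.cos θ * fderiv ℝ ψ x w +
          Real.sin θ * fderiv ℝ ψ x (Complex.I • w) := by
        rw [hu, exp_smul, map_add, map_smul, map_smul, smul_eq_mul, smul_eq_mul]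
      have e3 : H u u = Real.cos θ ^ 2 * H w w +
          Real.cos θ * Real.sin θ * (H w (Complex.I • w) + H (Complex.I • w) w) +
          Real.sin θ ^ 2 * H (Complex.I • w) (Complex.I • w) := by
        rw [hu, exp_smul]
        simp only [map_add, map_smul, add_apply, smul_apply, smul_eq_mul]
        ring
      rw [e1]
      rw [e2, e3] at h2
      linarith
    have hcirc : Continuous (fun θ : ℝ => ψ (circ x (t • w) θ)) := by
      apply hψ.continuous.comp
      unfold circ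
      fun_prop
    have hint : ∫ θ in (0 : ℝ)..(2 * Real.pi), ψ (circ x (t • w) θ) ≤
        2 * Real.pi * ψ x + Real.pi * (t ^ 2 / 2 * H w w +
          t ^ 2 / 2 * H (Complex.I • w) (Complex.I • w)) + 2 * Real.pi * (ε * t ^ 2 * ‖w‖ ^ 2) := by
      rw [← int_trig (ψ x) (t * fderiv ℝ ψ x w) (t * fderiv ℝ ψ x (Complex.I • w))
        (t ^ 2 / 2 * H w w) (t ^ 2 / 2 * (H w (Complex.I • w) + H (Complex.I • w) w))
        (t ^ 2 / 2 * H (Complex.I • w) (Complex.I • w)) (ε * t ^ 2 * ‖w‖ ^ 2)]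
      apply intervalIntegral.integral_mono (by positivity)
      · exact hcirc.intervalIntegrable _ _
      · apply Continuous.intervalIntegrable
        fun_prop
      · exact hpt
    rw [mean] at hm
    have hpi := Real.pi_pos
    have h3 : 2 * Real.pi * ψ x ≤ ∫ θ in (0 : ℝ)..(2 * Real.pi), ψ (circ x (t • w) θ) := by
      have h4 := mul_le_mul_of_nonneg_left hm (by positivity : (0 : ℝ) ≤ 2 * Real.pi)
      rwa [← mul_assoc, mul_inv_cancel₀ (by positivity), one_mul] at h4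
    have h5 : 0 ≤ (2 * Real.pi * t ^ 2) * ((H w w + H (Complex.I • w) (Complex.I • w)) / 4 +
        ε * ‖w‖ ^ 2) := by
      have h6 := h3.trans hint
      nlinarith
    exact nonneg_of_mul_nonneg_right h5 (by positivity)
  by_contra hneg
  push Not at hneg
  set S := H w w + H (Complex.I • w) (Complex.I • w) with hS
  have hw2 : 0 < ‖w‖ ^ 2 + 1 := by positivity
  have h1 := main (-S / (8 * (‖w‖ ^ 2 + 1))) (div_pos (by linarith) (by positivity))
  have h2 : -S / (8 * (‖w‖ ^ 2 + 1)) * ‖w‖ ^ 2 ≤ -S / 8 := by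
    have h3 : -S / (8 * (‖w‖ ^ 2 + 1)) * ‖w‖ ^ 2 = -S / 8 * (‖w‖ ^ 2 / (‖w‖ ^ 2 + 1)) := by
      field_simp
    rw [h3]
    have h4 : ‖w‖ ^ 2 / (‖w‖ ^ 2 + 1) ≤ 1 := by
      rw [div_le_one hw2]
      linarith
    have h5 : 0 ≤ -S / 8 := by linarith
    calc -S / 8 * (‖w‖ ^ 2 / (‖w‖ ^ 2 + 1)) ≤ -S / 8 * 1 := mul_le_mul_of_nonneg_left h4 h5
      _ = -S / 8 := mul_one _
  linarith

end Pool.Agent.H522R3.UT
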