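import Pool.Agent.H522R3.UT.Stmts

set_option autoImplicit false

open Set Filter Topology Metric MeasureTheory

namespace Pool.Agent.H522R3.UT

/-- multiplication by i -/
noncomputable def J (n : ℕ) : Cn n ≃ₗᵢ[ℝ] Cn n where
  toFun v := Complex.I • v
  invFun v := (-Complex.I) • v
  map_add' := smul_add _
  map_smul' r v := smul_comm _ _ _
  left_inv v := by simp [smul_smul]
  right_inv v := by simp [smul_smul]
  norm_map' v := by
    show ‖Complex.I • v‖ = ‖v‖
    simp [norm_smul]

section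
variable {E : Type} [NormedAddCommGroup E] [InnerProductSpace ℝ E] [FiniteDimensional ℝ E]

noncomputable def G (E : Type) [NormedAddCommGroup E] [InnerProductSpace ℝ E]
    [FiniteDimensional ℝ E] : (E →L[ℝ] ℝ) →L[ℝ] E :=
  ∑ i, (ContinuousLinearMap.apply ℝ ℝ (stdOrthonormalBasis ℝ E i)).smulRight
    (stdOrthonormalBasis ℝ E i)

theorem G_inner (l : E →L[ℝ] ℝ) (v : E) : inner ℝ (G E l) v = l v := by
  have h := (stdOrthonormalBasis ℝ E).sum_repr' v
  conv_rhs => rw [← h]
  simp only [G, ContinuousLinearMap.sum_apply, ContinuousLinearMap.smulRight_apply,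
    ContinuousLinearMap.apply_apply, sum_inner, map_sum, map_smul, inner_smul_left, smul_eq_mul]
  refine Finset.sum_congr rfl fun i _ => ?_
  simp [mul_comm]

/-- second order condition at a local maximum -/
theorem local_max_cond {ψ : E → ℝ} (hψ : ContDiff ℝ 2 ψ) {M : ℝ} {x y : E}
    (hx : IsLocalMax (fun w => ψ w - M / 2 * ‖w - y‖ ^ 2) x) (v : E) :
    fderiv ℝ ψ x v = M * inner ℝ (x - y) v ∧ fderiv ℝ (fderiv ℝ ψ) x v v ≤ M * ‖v‖ ^ 2 := by
  set h : ℝ → ℝ := fun t => ψ (x + t • v) - M / 2 * ‖x + t • v - y‖ ^ 2 with hh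
  have hline : ∀ t : ℝ, HasDerivAt (fun t : ℝ => x + t • v) v t := by
    intro t
    have := ((hasDerivAt_id t).smul_const v).const_add x
    simpa using this
  have hc : Tendsto (fun t : ℝ => x + t • v) (𝓝 0) (𝓝 x) := by
    have : Continuous (fun t : ℝ => x + t • v) := by fun_prop
    simpa using this.tendsto 0
  have hmax : IsLocalMax h 0 := by
    have := hc.eventually hx
    filter_upwards [this] with t ht
    simpa [hh] using ht
  have hexp : ∀ t : ℝ, ‖x + t • v - y‖ ^ 2 = ‖x - y‖ ^ 2 + 2 * t * inner ℝ (x - y) v + t ^ 2 * ‖v‖ ^ 2 := by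
    intro t
    rw [show x + t • v - y = (x - y) + t • v by abel, norm_add_sq_real, inner_smul_right, norm_smul,
      mul_pow, Real.norm_eq_abs, sq_abs]
    ring
  have hd1 : ∀ t : ℝ, HasDerivAt h (fderiv ℝ ψ (x + t • v) v - M * (inner ℝ (x - y) v + t * ‖v‖ ^ 2)) t := by
    intro t
    have h1 : HasDerivAt (fun t : ℝ => ψ (x + t • v)) (fderiv ℝ ψ (x + t • v) v) t :=
      ((hψ.differentiable (by norm_num)) (x + t • v)).hasFDerivAt.comp_hasDerivAt t (hline t)
    have h2 : HasDerivAt (fun t : ℝ => M / 2 * (‖x - y‖ ^ 2 + 2 * t * inner ℝ (x - y) v + t ^ 2 * ‖v‖ ^ 2))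
        (M * (inner ℝ (x - y) v + t * ‖v‖ ^ 2)) t := by
      have h3 : HasDerivAt (fun t : ℝ => ‖x - y‖ ^ 2 + 2 * t * inner ℝ (x - y) v + t ^ 2 * ‖v‖ ^ 2)
          (2 * inner ℝ (x - y) v + 2 * t * ‖v‖ ^ 2) t := by
        have a1 := (((hasDerivAt_id t).const_mul 2).mul_const (inner ℝ (x - y) v)).const_add (‖x - y‖ ^ 2)
        have a2 := ((hasDerivAt_id t).pow 2).mul_const (‖v‖ ^ 2)
        have a3 := a1.add a2
        refine a3.congr_deriv ?_
        simp
      refine (h3.const_mul (M / 2)).congr_deriv ?_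
      ring
    have h4 := h1.sub h2
    refine h4.congr_of_eventuallyEq (Eventually.of_forall fun s => ?_)
    simp only [hh, hexp, Pi.sub_apply]
  have hderiv : deriv h = fun t => fderiv ℝ ψ (x + t • v) v - M * (inner ℝ (x - y) v + t * ‖v‖ ^ 2) :=
    funext fun t => (hd1 t).deriv
  have h0 : fderiv ℝ ψ x v = M * inner ℝ (x - y) v := by
    have := hmax.deriv_eq_zero
    rw [(hd1 0).deriv] at this
    simp at this
    linarith
  refine ⟨h0, ?_⟩
  by_contra hcon
  push Not at hcon
  have hd2 : HasDerivAt (deriv h) (fderiv ℝ (fderiv ℝ ψ) x v v - M * ‖v‖ ^ 2) 0 := by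
    rw [hderiv]
    have hF : Differentiable ℝ (fderiv ℝ ψ) :=
      (hψ.fderiv_right (m := 1) (by norm_num)).differentiable (by norm_num)
    have h1 : HasDerivAt (fun t : ℝ => fderiv ℝ ψ (x + t • v)) (fderiv ℝ (fderiv ℝ ψ) x v) 0 := by
      have h0' : HasFDerivAt (fderiv ℝ ψ) (fderiv ℝ (fderiv ℝ ψ) x) (x + (0 : ℝ) • v) := by
        rw [zero_smul, add_zero]
        exact (hF x).hasFDerivAt
      exact h0'.comp_hasDerivAt (0 : ℝ) (hline 0)
    have h2 : HasDerivAt (fun t : ℝ => fderiv ℝ ψ (x + t • v) v) (fderiv ℝ (fderiv ℝ ψ) x v v) 0 := by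
      have := h1.clm_apply (hasDerivAt_const (0 : ℝ) v)
      simpa using this
    have h3 : HasDerivAt (fun t : ℝ => M * (inner ℝ (x - y) v + t * ‖v‖ ^ 2)) (M * ‖v‖ ^ 2) 0 := by
      have := (((hasDerivAt_id (0 : ℝ)).mul_const (‖v‖ ^ 2)).const_add (inner ℝ (x - y) v)).const_mul M
      simpa using this
    exact h2.sub h3
  have hmin : IsLocalMin h 0 := by
    apply isLocalMin_of_deriv_deriv_pos
    · rw [hd2.deriv]; linarith
    · exact hmax.deriv_eq_zero
    · exact (hd1 0).continuousAt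
  have hconst : h =ᶠ[𝓝 0] fun _ => h 0 := by
    filter_upwards [hmax, hmin] with t h1 h2
    exact le_antisymm h1 h2
  have h1 : deriv h =ᶠ[𝓝 0] fun _ => 0 := by
    have := hconst.deriv
    simpa using this
  have h2 : deriv (deriv h) 0 = 0 := by
    rw [h1.deriv_eq]; simp
  rw [hd2.deriv] at h2
  linarith
end

theorem T3_of (hT1 : T1) : T3 := by
  intro n ψ hψ M hM A Y hA hLevi hY
  set L : Cn n → (Cn n →L[ℝ] Cn n) := fun x =>
    ContinuousLinearMap.id ℝ (Cn n) - (1 / M) • ((G (Cn n)).comp (fderiv ℝ (fderiv ℝ ψ) x)) with hL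
  set f : Cn n → Cn n := fun x => x - (1 / M) • G (Cn n) (fderiv ℝ ψ x) with hf
  have hF : ContDiff ℝ 1 (fderiv ℝ ψ) := hψ.fderiv_right (m := 1) (by norm_num)
  have hfd : ∀ x, HasFDerivAt f (L x) x := by
    intro x
    have h1 : HasFDerivAt (fun x => G (Cn n) (fderiv ℝ ψ x))
        ((G (Cn n)).comp (fderiv ℝ (fderiv ℝ ψ) x)) x :=
      (G (Cn n)).hasFDerivAt.comp x ((hF.differentiable (by norm_num)) x).hasFDerivAt
    exact (hasFDerivAt_id x).sub (h1.const_smul (1 / M))
  set A' : Set (Cn n) := A ∩ {x | ∀ v, fderiv ℝ (fderiv ℝ ψ) x v v ≤ M * ‖v‖ ^ 2} with hA'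
  have hcont : Continuous (fderiv ℝ (fderiv ℝ ψ)) := hF.continuous_fderiv (by norm_num)
  have hA'm : MeasurableSet A' := by
    refine hA.inter (IsClosed.measurableSet ?_)
    rw [setOf_forall]
    refine isClosed_iInter fun v => ?_
    exact isClosed_le ((hcont.clm_apply continuous_const).clm_apply continuous_const) continuous_const
  have hsub : Y ⊆ f '' A' := by
    intro y hy
    obtain ⟨x, hxA, hx⟩ := hY y hy
    refine ⟨x, ⟨hxA, fun v => (local_max_cond hψ hx v).2⟩, ?_⟩
    have hG : G (Cn n) (fderiv ℝ ψ x) = M • (x - y) := by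
      refine ext_inner_right ℝ fun v => ?_
      rw [G_inner, (local_max_cond hψ hx v).1, inner_smul_left]
      simp
    simp only [hf, hG, smul_smul]
    rw [one_div, inv_mul_cancel₀ hM.ne', one_smul]
    abel
  have hdet : ∀ x ∈ A', |(L x).det| ≤ 1 := by
    intro x hx
    have hin : ∀ v w, inner ℝ (L x v) w = inner ℝ v w - (1 / M) * fderiv ℝ (fderiv ℝ ψ) x v w := by
      intro v w
      simp only [hL, ContinuousLinearMap.sub_apply, ContinuousLinearMap.id_apply,
        ContinuousLinearMap.smul_apply, ContinuousLinearMap.comp_apply, inner_sub_left,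
        inner_smul_left, G_inner]
      simp
    have hsymm : ∀ v w, fderiv ℝ (fderiv ℝ ψ) x v w = fderiv ℝ (fderiv ℝ ψ) x w v := by
      intro v w
      have := (hψ.contDiffAt (x := x)).isSymmSndFDerivAt (by simp [minSmoothness])
      exact this v w
    apply hT1
    · intro v w
      show inner ℝ (L x v) w = inner ℝ v (L x w)
      rw [hin, real_inner_comm, real_inner_comm (L x w) v, hin, hsymm]
    · intro v
      rw [hin, real_inner_self_eq_norm_sq]
      have := hx.2 v
      have h2 : (1 / M) * fderiv ℝ (fderiv ℝ ψ) x v v ≤ ‖v‖ ^ 2 := by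
        rw [one_div, inv_mul_le_iff₀ hM]; exact this
      linarith
    · -- trace
      have htr : ∀ b : OrthonormalBasis (Fin (Module.finrank ℝ (Cn n))) ℝ (Cn n),
          LinearMap.trace ℝ (Cn n) (L x : Cn n →ₗ[ℝ] Cn n) = (Module.finrank ℝ (Cn n) : ℝ) -
            (1 / M) * ∑ i, fderiv ℝ (fderiv ℝ ψ) x (b i) (b i) := by
        intro b
        rw [LinearMap.trace_eq_sum_inner _ b]
        have : ∀ i, inner ℝ (b i) ((L x : Cn n →ₗ[ℝ] Cn n) (b i)) =
            1 - (1 / M) * fderiv ℝ (fderiv ℝ ψ) x (b i) (b i) := by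
          intro i
          rw [real_inner_comm]
          show inner ℝ (L x (b i)) (b i) = _
          rw [hin, real_inner_self_eq_norm_sq, b.norm_eq_one]
          simp
        simp only [this, Finset.sum_sub_distrib, ← Finset.mul_sum]
        simp
      have h1 := htr (stdOrthonormalBasis ℝ (Cn n))
      have h2 := htr ((stdOrthonormalBasis ℝ (Cn n)).map (J n))
      have h3 : 0 ≤ ∑ i, fderiv ℝ (fderiv ℝ ψ) x (stdOrthonormalBasis ℝ (Cn n) i) (stdOrthonormalBasis ℝ (Cn n) i) +
          ∑ i, fderiv ℝ (fderiv ℝ ψ) x (((stdOrthonormalBasis ℝ (Cn n)).map (J n)) i)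
            (((stdOrthonormalBasis ℝ (Cn n)).map (J n)) i) := by
        rw [← Finset.sum_add_distrib]
        refine Finset.sum_nonneg fun i _ => ?_
        exact hLevi x hx.1 _
      have h4 : 0 ≤ 1 / M := by positivity
      nlinarith [mul_nonneg h4 h3]
  calc volume Y ≤ volume (f '' A') := measure_mono hsub
    _ ≤ ∫⁻ x in A', ENNReal.ofReal |(L x).det| :=
        addHaar_image_le_lintegral_abs_det_fderiv volume hA'm
          (fun x _ => (hfd x).hasFDerivWithinAt)
    _ ≤ ∫⁻ _ in A', 1 := by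
        refine setLIntegral_mono' hA'm fun x hx => ?_
        rw [← ENNReal.ofReal_one]
        exact ENNReal.ofReal_le_ofReal (hdet x hx)
    _ = volume A' := by simp
    _ ≤ volume A := measure_mono inter_subset_left

end Pool.Agent.H522R3.UT
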