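import Pool.Agent.H023R3.UT.T4

set_option autoImplicit false

namespace Pool.Agent.H522R3.UT

theorem T4_proof : T4 := Pool.Agent.H023R3.UT.T4_proof

end Pool.Agent.H522R3.UT
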