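import Pool.Agent.H522R3.UT.Stmts

set_option autoImplicit false
set_option maxHeartbeats 1000000

open Set Filter Topology Metric MeasureTheory

namespace Pool.Agent.H522R3.UT

lemma T5_fub {n : ℕ} (f : Cn n → ℝ) (hf : Measurable f) (B : ℝ) (hB : ∀ x, |f x| ≤ B)
    (K : Cn n → ℝ) (hK : Continuous K) (hKi : Integrable K) (g : ℝ → Cn n → Cn n)
    (hg : Continuous (fun p : ℝ × Cn n => g p.1 p.2)) :
    ((2 * Real.pi)⁻¹ * ∫ θ in (0 : ℝ)..(2 * Real.pi), ∫ t, K t * f (g θ t)) =
      ∫ t, K t * ((2 * Real.pi)⁻¹ * ∫ θ in (0 : ℝ)..(2 * Real.pi), f (g θ t)) ∧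
    Integrable (fun t => K t * ((2 * Real.pi)⁻¹ *
      ∫ θ in (0 : ℝ)..(2 * Real.pi), f (g θ t))) := by
  have hpi : (0 : ℝ) ≤ 2 * Real.pi := by positivity
  set μ : Measure ℝ := volume.restrict (Ioc 0 (2 * Real.pi)) with hμ
  have hmeas : Measurable (fun p : ℝ × Cn n => K p.2 * f (g p.1 p.2)) :=
    (hK.measurable.comp measurable_snd).mul (hf.comp hg.measurable)
  have hbd : Integrable (fun p : ℝ × Cn n => |K p.2| * B) (μ.prod volume) := by
    have h1 : Integrable (fun t : Cn n => |K t| * B) := hKi.abs.mul_const B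
    exact h1.comp_snd μ
  have hint : Integrable (fun p : ℝ × Cn n => K p.2 * f (g p.1 p.2)) (μ.prod volume) := by
    refine hbd.mono' hmeas.aestronglyMeasurable (ae_of_all _ fun p => ?_)
    rw [Real.norm_eq_abs, abs_mul]
    exact mul_le_mul_of_nonneg_left (hB _) (abs_nonneg _)
  have hswap := integral_integral_swap (μ := μ) (ν := (volume : Measure (Cn n)))
    (f := fun θ t => K t * f (g θ t)) hint
  have hinner : ∀ t : Cn n, ∫ θ, K t * f (g θ t) ∂μ =
      K t * ∫ θ in (0 : ℝ)..(2 * Real.pi), f (g θ t) := by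
    intro t
    rw [intervalIntegral.integral_of_le hpi, integral_const_mul]
  refine ⟨?_, ?_⟩
  · rw [intervalIntegral.integral_of_le hpi, hswap, ← integral_const_mul]
    refine integral_congr_ae (ae_of_all _ fun t => ?_)
    simp only [hinner]
    ring
  · have h2 := (hint.integral_prod_right).const_mul (2 * Real.pi)⁻¹
    refine h2.congr (ae_of_all _ fun t => ?_)
    simp only [hinner]
    ring

/-- rotation -/
noncomputable def T5_rot (n : ℕ) (u : ℂ) (hu : ‖u‖ = 1) : Cn n ≃ₗᵢ[ℝ] Cn n where
  toFun := fun t => u • t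
  invFun := fun t => u⁻¹ • t
  map_add' := fun a b => smul_add _ _ _
  map_smul' := fun r a => smul_comm _ _ _
  left_inv := fun t => by
    have h0 : u ≠ 0 := by
      intro h; rw [h] at hu; simp at hu
    simp [smul_smul, inv_mul_cancel₀ h0]
  right_inv := fun t => by
    have h0 : u ≠ 0 := by
      intro h; rw [h] at hu; simp at hu
    simp [smul_smul, mul_inv_cancel₀ h0]
  norm_map' := fun t => by
    change ‖u • t‖ = ‖t‖
    rw [norm_smul, hu, one_mul]

lemma T5_rot_int {n : ℕ} (u : ℂ) (hu : ‖u‖ = 1) (G : Cn n → ℝ) :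
    ∫ t, G (u • t) = ∫ t, G t := by
  have h := (T5_rot n u hu).measurePreserving
  exact h.integral_comp (T5_rot n u hu).toHomeomorph.measurableEmbedding G

theorem T5_proof : T5 := by
  intro n f m S x0 R hR husc hm hS hsub ε hε hεR
  have hf : Measurable f := husc.measurable
  set B : ℝ := max |m| |S| with hBdef
  have hB : ∀ x, |f x| ≤ B := by
    intro x
    exact abs_le_max_abs_abs (hm x) (hS x)
  -- the kernel
  set K0 : Cn n → ℝ := fun t => Real.smoothTransition (ε ^ 2 - ‖t‖ ^ 2) with hK0
  have hK0c : ContDiff ℝ 2 K0 := by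
    refine Real.smoothTransition.contDiff.comp ?_
    exact contDiff_const.sub (contDiff_norm_sq ℝ)
  have hK0nn : ∀ t, 0 ≤ K0 t := fun t => Real.smoothTransition.nonneg _
  have hK0z : ∀ t, ε ≤ ‖t‖ → K0 t = 0 := by
    intro t ht
    refine Real.smoothTransition.zero_of_nonpos ?_
    have : ε ^ 2 ≤ ‖t‖ ^ 2 := pow_le_pow_left₀ hε.le ht 2
    linarith
  have hK0cs : HasCompactSupport K0 := by
    refine HasCompactSupport.intro (isCompact_closedBall (0 : Cn n) ε) fun t ht => ?_
    refine hK0z t ?_
    rw [mem_closedBall, dist_zero_right, not_le] at ht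
    exact ht.le
  have hK0i : Integrable K0 := hK0c.continuous.integrable_of_hasCompactSupport hK0cs
  have hK0pos : 0 < ∫ t, K0 t := by
    refine hK0c.continuous.integral_pos_of_hasCompactSupport_nonneg_nonzero hK0cs hK0nn
      (x := 0) ?_
    refine ne_of_gt ?_
    refine Real.smoothTransition.pos_of_pos ?_
    simp
    positivity
  set c : ℝ := (∫ t, K0 t)⁻¹ with hc
  have hc0 : 0 < c := inv_pos.mpr hK0pos
  set K : Cn n → ℝ := fun t => c * K0 t with hKdef
  have hKc : ContDiff ℝ 2 K := contDiff_const.mul hK0c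
  have hKcont : Continuous K := hKc.continuous
  have hKnn : ∀ t, 0 ≤ K t := fun t => mul_nonneg hc0.le (hK0nn t)
  have hKz : ∀ t, ε ≤ ‖t‖ → K t = 0 := fun t ht => by simp [hKdef, hK0z t ht]
  have hKcs : HasCompactSupport K := by
    refine HasCompactSupport.intro (isCompact_closedBall (0 : Cn n) ε) fun t ht => ?_
    refine hKz t ?_
    rw [mem_closedBall, dist_zero_right, not_le] at ht
    exact ht.le
  have hKi : Integrable K := hK0i.const_mul c
  have hK1 : ∫ t, K t = 1 := by
    rw [hKdef, integral_const_mul, hc]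
    exact inv_mul_cancel₀ hK0pos.ne'
  have hKrot : ∀ (u : ℂ), ‖u‖ = 1 → ∀ t, K (u • t) = K t := by
    intro u hu t
    simp only [hKdef, hK0, norm_smul, hu, one_mul]
  -- the mollification
  set ψ : Cn n → ℝ := fun x => ∫ t, K t * f (x - t) with hψ
  have hint : ∀ x, Integrable (fun t => K t * f (x - t)) := by
    intro x
    have h1 : Integrable (fun t : Cn n => |K t| * B) := hKi.abs.mul_const B
    refine h1.mono' ?_ (ae_of_all _ fun t => ?_)
    · exact (hKcont.measurable.mul (hf.comp (measurable_const.sub measurable_id))).aestronglyMeasurable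
    · rw [Real.norm_eq_abs, abs_mul]
      exact mul_le_mul_of_nonneg_left (hB _) (abs_nonneg _)
  refine ⟨ψ, ?_, ?_, ?_, ?_⟩
  · have hloc : LocallyIntegrable f := by
      refine (locallyIntegrable_const B).mono hf.aestronglyMeasurable (ae_of_all _ fun x => ?_)
      rw [Real.norm_eq_abs, Real.norm_eq_abs]
      exact (hB x).trans (le_abs_self _)
    have h := hKcs.contDiff_convolution_left (n := 2) (ContinuousLinearMap.lsmul ℝ ℝ) hKc hloc
      (μ := volume)
    have he : ψ = convolution K f (ContinuousLinearMap.lsmul ℝ ℝ) volume := by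
      ext x
      rfl
    rw [he]
    exact h
  · intro x hx
    have hrot : ∀ θ : ℝ, ψ x = ∫ t, K t * f (circ x (-t) θ) := by
      intro θ
      have hu : ‖Complex.exp ((θ : ℂ) * Complex.I)‖ = 1 := Complex.norm_exp_ofReal_mul_I θ
      have h := T5_rot_int (Complex.exp ((θ : ℂ) * Complex.I)) hu (fun t => K t * f (x - t))
      rw [hψ]
      simp only
      rw [← h]
      refine integral_congr_ae (ae_of_all _ fun t => ?_)
      simp only [hKrot _ hu]
      congr 2
      unfold circ
      rw [smul_neg, sub_eq_add_neg]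
    have hmean : ψ x = (2 * Real.pi)⁻¹ * ∫ θ in (0 : ℝ)..(2 * Real.pi),
        ∫ t, K t * f (circ x (-t) θ) := by
      have h1 : ∫ θ in (0 : ℝ)..(2 * Real.pi), ∫ t, K t * f (circ x (-t) θ) =
          ∫ θ in (0 : ℝ)..(2 * Real.pi), ψ x :=
        intervalIntegral.integral_congr fun θ _ => (hrot θ).symm
      rw [h1, intervalIntegral.integral_const, smul_eq_mul, sub_zero, ← mul_assoc,
        inv_mul_cancel₀ (by positivity), one_mul]
    have hgc : Continuous (fun p : ℝ × Cn n => circ x (-p.2) p.1) := by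
      unfold circ
      fun_prop
    obtain ⟨hF1, hF2⟩ := T5_fub f hf B hB K hKcont hKi (fun θ t => circ x (-t) θ) hgc
    rw [hmean, hF1]
    have h2 : f x = ∫ t, K t * f x := by
      rw [integral_mul_const, hK1, one_mul]
    rw [h2]
    refine integral_mono (hKi.mul_const _) hF2 fun t => ?_
    by_cases ht : ε ≤ ‖t‖
    · simp [hKz t ht]
    · push Not at ht
      refine mul_le_mul_of_nonneg_left ?_ (hKnn t)
      refine hsub x (-t) fun ζ hζ => ?_
      rw [mem_closedBall, dist_eq_norm] at hx ⊢
      have h3 : ‖ζ • (-t)‖ ≤ ε := by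
        rw [norm_smul, norm_neg]
        calc ‖ζ‖ * ‖t‖ ≤ 1 * ‖t‖ := mul_le_mul_of_nonneg_right hζ (norm_nonneg _)
          _ ≤ ε := by linarith
      calc ‖x + ζ • (-t) - x0‖ = ‖(x - x0) + ζ • (-t)‖ := by congr 1; abel
        _ ≤ ‖x - x0‖ + ‖ζ • (-t)‖ := norm_add_le _ _
        _ ≤ 2 * R := by linarith
  · intro x b hb
    have h2 : b = ∫ t, K t * b := by
      rw [integral_mul_const, hK1, one_mul]
    rw [h2]
    refine integral_mono (hint x) (hKi.mul_const _) fun t => ?_
    by_cases ht : ε ≤ ‖t‖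
    · simp [hKz t ht]
    · push Not at ht
      refine mul_le_mul_of_nonneg_left (hb _ ?_) (hKnn t)
      rw [mem_ball, dist_eq_norm]
      have : x - t - x = -t := by abel
      rw [this, norm_neg]
      exact ht
  · intro z w hzw
    have hgc : Continuous (fun p : ℝ × Cn n => circ z w p.1 - p.2) := by
      unfold circ
      fun_prop
    obtain ⟨hF1, hF2⟩ := T5_fub f hf B hB K hKcont hKi (fun θ t => circ z w θ - t) hgc
    have hmean : mean ψ z w = ∫ t, K t * ((2 * Real.pi)⁻¹ *
        ∫ θ in (0 : ℝ)..(2 * Real.pi), f (circ z w θ - t)) := by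
      rw [← hF1]
      rfl
    rw [hmean]
    refine integral_mono (hint z) hF2 fun t => ?_
    by_cases ht : ε ≤ ‖t‖
    · simp [hKz t ht]
    · push Not at ht
      refine mul_le_mul_of_nonneg_left ?_ (hKnn t)
      have h4 := hsub (z - t) w fun ζ hζ => ?_
      · refine h4.trans (le_of_eq ?_)
        unfold mean
        congr 1
        refine intervalIntegral.integral_congr fun θ _ => ?_
        change f (circ (z - t) w θ) = f (circ z w θ - t)
        congr 1
        unfold circ
        abel
      · have h5 := hzw ζ hζ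
        rw [mem_closedBall, dist_eq_norm] at h5 ⊢
        calc ‖z - t + ζ • w - x0‖ = ‖(z + ζ • w - x0) + (-t)‖ := by congr 1; abel
          _ ≤ ‖z + ζ • w - x0‖ + ‖-t‖ := norm_add_le _ _
          _ ≤ 2 * R := by rw [norm_neg]; linarith

end Pool.Agent.H522R3.UT
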