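import Mathlib
import Pool.Agent.H522R3.UT.Stmts

/-! Task T6 of project H522-PSH (written by helper782). -/

set_option autoImplicit false

open Set Filter Topology Metric MeasureTheory

namespace Pool.Agent.H522R3.UT.T6p

open Pool.Agent.H522R3.UT

/-- truncation of `φ` at height `-j`, extended by `-j` -/
noncomputable def fj {n : ℕ} (φ : Cn n → EReal) (B : Set (Cn n)) (j : ℕ) (x : Cn n) : ℝ :=
  open Classical in if x ∈ B then (max (φ x) ((-(j : ℝ) : ℝ) : EReal)).toReal else -(j : ℝ)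

section
variable {n : ℕ} {φ : Cn n → EReal} {B : Set (Cn n)} {j : ℕ}

lemma coe_fj (htop : ∀ x ∈ B, φ x ≠ ⊤) {x : Cn n} (hx : x ∈ B) :
    ((fj φ B j x : ℝ) : EReal) = max (φ x) ((-(j : ℝ) : ℝ) : EReal) := by
  unfold fj
  rw [if_pos hx, EReal.coe_toReal]
  · rcases max_choice (φ x) ((-(j : ℝ) : ℝ) : EReal) with h | h
    · rw [h]; exact htop x hx
    · rw [h]; exact EReal.coe_ne_top _
  · intro h
    have := le_max_right (φ x) ((-(j : ℝ) : ℝ) : EReal)
    rw [h] at this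
    exact EReal.coe_ne_bot _ (le_bot_iff.1 this)

lemma fj_out {x : Cn n} (hx : x ∉ B) : fj φ B j x = -(j : ℝ) := by
  unfold fj
  rw [if_neg hx]

lemma fj_ge (htop : ∀ x ∈ B, φ x ≠ ⊤) (x : Cn n) : -(j : ℝ) ≤ fj φ B j x := by
  by_cases hx : x ∈ B
  · rw [← EReal.coe_le_coe_iff, coe_fj htop hx]
    exact le_max_right _ _
  · rw [fj_out hx]

lemma fj_le (htop : ∀ x ∈ B, φ x ≠ ⊤) {x : Cn n} {c : ℝ} (hc : -(j : ℝ) ≤ c)
    (hφ : x ∈ B → φ x ≤ (c : EReal)) : fj φ B j x ≤ c := by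
  by_cases hx : x ∈ B
  · rw [← EReal.coe_le_coe_iff, coe_fj htop hx]
    exact max_le (hφ hx) (EReal.coe_le_coe_iff.2 hc)
  · rw [fj_out hx]; exact hc

lemma fj_lt (htop : ∀ x ∈ B, φ x ≠ ⊤) {x : Cn n} {c : ℝ} (hc : -(j : ℝ) < c)
    (hφ : x ∈ B → φ x < (c : EReal)) : fj φ B j x < c := by
  by_cases hx : x ∈ B
  · rw [← EReal.coe_lt_coe_iff, coe_fj htop hx]
    exact max_lt (hφ hx) (EReal.coe_lt_coe_iff.2 hc)
  · rw [fj_out hx]; exact hc

lemma fj_usc (htop : ∀ x ∈ B, φ x ≠ ⊤) (hB : IsClosed B) (husc : UpperSemicontinuousOn φ B) :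
    UpperSemicontinuous (fj φ B j) := by
  intro x c hc
  have hjc : -(j : ℝ) < c := lt_of_le_of_lt (fj_ge htop x) hc
  by_cases hx : x ∈ B
  · have h1 : φ x < (c : EReal) := by
      refine lt_of_le_of_lt ?_ (EReal.coe_lt_coe_iff.2 hc)
      rw [coe_fj htop hx]
      exact le_max_left _ _
    have h2 := husc x hx (c : EReal) h1
    rw [eventually_nhdsWithin_iff] at h2
    filter_upwards [h2] with y hy
    exact fj_lt htop hjc hy
  · filter_upwards [hB.isOpen_compl.mem_nhds hx] with y hy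
    rw [fj_out hy]; exact hjc

end

theorem T6_proof : T6 := by
  intro h4 h5 n Ω φ hφ x0 R hR hsub
  obtain ⟨htop0, husc0, hmean⟩ := hφ
  set B := closedBall x0 (2 * R) with hB
  have htop : ∀ x ∈ B, φ x ≠ ⊤ := fun x hx => htop0 x (hsub hx)
  have husc : UpperSemicontinuousOn φ B := husc0.mono hsub
  have hBc : IsClosed B := isClosed_closedBall
  have hBcomp : IsCompact B := isCompact_closedBall _ _
  -- upper bound
  obtain ⟨S, hS0, hS⟩ : ∃ S : ℝ, 0 ≤ S ∧ ∀ x ∈ B, φ x ≤ (S : EReal) := by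
    obtain ⟨a, ha, hmax⟩ := husc.exists_isMaxOn ⟨x0, mem_closedBall_self (by linarith)⟩ hBcomp
    refine ⟨max 0 (φ a).toReal, le_max_left _ _, fun x hx => (hmax hx).trans ?_⟩
    refine (EReal.le_coe_toReal (htop a ha)).trans ?_
    exact EReal.coe_le_coe_iff.2 (le_max_right _ _)
  have h2pi : 0 < (2 * Real.pi)⁻¹ := by positivity
  have hpi : (0:ℝ) ≤ 2 * Real.pi := by positivity
  -- sub-mean property of the truncations
  have hsm : ∀ (j : ℕ) (z w : Cn n), (∀ ζ : ℂ, ‖ζ‖ ≤ 1 → z + ζ • w ∈ B) →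
      fj φ B j z ≤ mean (fj φ B j) z w := by
    intro j z w hzw
    have hz : z ∈ B := by simpa using hzw 0 (by simp)
    have hcirc : ∀ θ : ℝ, circ z w θ ∈ B := fun θ => hzw _ (by
      rw [Complex.norm_exp_ofReal_mul_I])
    have hcc : Continuous (circ z w) := by
      unfold circ
      fun_prop
    refine le_of_forall_pos_le_add fun ε hε => ?_
    obtain ⟨h, hcont, hge, hint⟩ := h4 (fun θ => fj φ B j (circ z w θ)) (-(j : ℝ)) S
      ((fj_usc htop hBc husc).comp hcc) (fun θ => fj_ge htop _)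
      (fun θ => fj_le htop (by have : (0:ℝ) ≤ j := Nat.cast_nonneg j; linarith) (hS _)) (2 * Real.pi * ε)
      (by positivity)
    have h6 : (2 * Real.pi)⁻¹ * ∫ θ in (0 : ℝ)..(2 * Real.pi), h θ ≤ mean (fj φ B j) z w + ε := by
      unfold mean
      have h7 := mul_le_mul_of_nonneg_left hint h2pi.le
      rw [mul_add] at h7
      have h8 : (2 * Real.pi)⁻¹ * (2 * Real.pi * ε) = ε := by field_simp
      rw [h8] at h7
      exact h7
    refine le_trans ?_ h6
    refine fj_le htop ?_ ?_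
    · -- -j ≤ mean of h
      have h9 : ∫ _θ in (0 : ℝ)..(2 * Real.pi), (-(j : ℝ)) ≤ ∫ θ in (0 : ℝ)..(2 * Real.pi), h θ :=
        intervalIntegral.integral_mono_on hpi intervalIntegrable_const (hcont.intervalIntegrable _ _)
          (fun θ _ => (fj_ge htop _).trans (hge θ))
      rw [intervalIntegral.integral_const, sub_zero, smul_eq_mul] at h9
      have h10 := mul_le_mul_of_nonneg_left h9 h2pi.le
      have h11 : (2 * Real.pi)⁻¹ * (2 * Real.pi * -(j : ℝ)) = -(j : ℝ) := by field_simp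
      rw [h11] at h10
      exact h10
    · intro _
      refine hmean z w (fun ζ hζ => hsub (hzw ζ hζ)) h hcont fun θ _ => ?_
      refine le_trans ?_ (EReal.coe_le_coe_iff.2 (hge θ))
      rw [coe_fj htop (hcirc θ)]
      exact le_max_left _ _
  -- mollification
  have hε : ∀ j : ℕ, 0 < R / (2 * ((j : ℝ) + 2)) ∧ R / (2 * ((j : ℝ) + 2)) < R / 2 := by
    intro j
    have hj : (0:ℝ) ≤ j := Nat.cast_nonneg j
    refine ⟨by positivity, ?_⟩
    apply div_lt_div_of_pos_left hR (by norm_num)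
    linarith
  have hmol := fun j : ℕ => h5 n (fj φ B j) (-(j : ℝ)) S x0 R hR (fj_usc htop hBc husc) (fj_ge htop)
    (fun x => fj_le htop (by have : (0:ℝ) ≤ j := Nat.cast_nonneg j; linarith) (hS x)) (hsm j)
    (R / (2 * ((j : ℝ) + 2))) (hε j).1 (hε j).2
  choose ψ p1 p2 p3 p4 using hmol
  have hsubB : closedBall x0 R ⊆ B := closedBall_subset_closedBall (by linarith)
  refine ⟨ψ, p1, fun j x hx => ?_, fun x hx c hc => ?_, p4⟩
  · refine le_trans ?_ (EReal.coe_le_coe_iff.2 (p2 j x hx))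
    rw [coe_fj htop (hsubB hx)]
    exact le_max_left _ _
  · have h1 := husc x (hsubB hx) (c : EReal) hc
    rw [eventually_nhdsWithin_iff, Metric.eventually_nhds_iff] at h1
    obtain ⟨δ, hδ, h2⟩ := h1
    obtain ⟨J1, hJ1⟩ := exists_nat_ge (-c)
    obtain ⟨J2, hJ2⟩ := exists_nat_ge (R / δ)
    refine ⟨δ / 2, by positivity, max J1 J2, fun j hj x' hx' hd => p3 j x' c fun y hy => ?_⟩
    have hj1 : (J1 : ℝ) ≤ j := by exact_mod_cast (le_max_left J1 J2).trans hj
    have hj2 : (J2 : ℝ) ≤ j := by exact_mod_cast (le_max_right J1 J2).trans hj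
    have hj0 : (0:ℝ) ≤ j := Nat.cast_nonneg j
    have hεδ : R / (2 * ((j : ℝ) + 2)) ≤ δ / 2 := by
      have h3 : R ≤ δ * j := by
        have h4 : R / δ ≤ j := hJ2.trans hj2
        rw [div_le_iff₀ hδ] at h4
        linarith
      rw [div_le_div_iff₀ (by positivity) (by norm_num)]
      nlinarith
    have hyd : dist y x' < R / (2 * ((j : ℝ) + 2)) := hy
    refine fj_le htop (by linarith) fun hyB => (h2 ?_ hyB).le
    calc dist y x ≤ dist y x' + dist x' x := dist_triangle _ _ _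
      _ < δ / 2 + δ / 2 := by linarith
      _ = δ := by ring

end Pool.Agent.H522R3.UT.T6p
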