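import Pool.Agent.H522R3.UT.Stmts

/-! T7 (helper853): the main inequality. -/

set_option autoImplicit false

open Set Filter Topology Metric MeasureTheory

namespace Pool.Agent.H522R3.UT

namespace T7Aux

variable {n : ℕ}

/-- one step -/
lemma step (h2 : T2) (h3 : T3) {φ : Cn n → EReal} {x0 : Cn n} {R : ℝ} (hR : 0 < R)
    {ψ : ℕ → Cn n → ℝ} (hψ : Approx φ x0 R ψ) {M : ℝ} (hM : 0 < M) {Y G : Set (Cn n)}
    (hG : IsOpen G) (hGb : G ⊆ ball x0 R) (hlt : volume G < volume Y) (j : ℕ) :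
    ∃ y ∈ Y, ∃ x ∈ closedBall x0 R, x ∉ G ∧ ∀ w ∈ closedBall x0 R,
      ψ j w - M / 2 * ‖w - y‖ ^ 2 ≤ ψ j x - M / 2 * ‖x - y‖ ^ 2 := by
  by_contra hcon
  push Not at hcon
  refine absurd (h3 n (ψ j) (hψ.1 j) M hM G Y hG.measurableSet ?_ ?_) (not_le.mpr hlt)
  · intro x hx w
    have hxb := hGb hx
    rw [mem_ball] at hxb
    have hw0 := norm_nonneg w
    have hr : 0 < (R - dist x x0) / (‖w‖ + 1) := div_pos (by linarith) (by linarith)
    refine h2 n (ψ j) (hψ.1 j) x w _ hr ?_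
    intro t ht htr
    refine hψ.2.2.2 j x (t • w) ?_
    intro ζ hζ
    rw [mem_closedBall]
    have h5 : ‖ζ • (t • w)‖ ≤ R - dist x x0 := by
      rw [norm_smul, norm_smul, Real.norm_of_nonneg ht.le]
      have h6 : t * (‖w‖ + 1) < R - dist x x0 := by
        rwa [lt_div_iff₀ (by linarith)] at htr
      have h7 : ‖ζ‖ * (t * ‖w‖) ≤ 1 * (t * ‖w‖) :=
        mul_le_mul_of_nonneg_right hζ (by positivity)
      nlinarith
    calc dist (x + ζ • (t • w)) x0 ≤ dist (x + ζ • (t • w)) x + dist x x0 := dist_triangle _ _ _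
      _ ≤ R := by
        rw [dist_self_add_left]
        linarith
  · intro y hy
    have hcont : Continuous (fun w => ψ j w - M / 2 * ‖w - y‖ ^ 2) := by
      have h1 := (hψ.1 j).continuous
      exact h1.sub (continuous_const.mul ((continuous_id.sub continuous_const).norm.pow 2))
    obtain ⟨x, hxK, hmax⟩ := (isCompact_closedBall x0 R).exists_isMaxOn
      ⟨x0, mem_closedBall_self hR.le⟩ hcont.continuousOn
    have hxG : x ∈ G := by
      by_contra hx
      obtain ⟨w, hw, hlt⟩ := hcon y hy x hxK hx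
      exact absurd (hmax hw) (not_le.mpr hlt)
    exact ⟨x, hxG, hmax.isLocalMax (closedBall_mem_nhds_of_mem (hGb hxG))⟩

end T7Aux

open T7Aux in
theorem T7_proof : T7 := by
  intro h2 h3 n φ x0 R hR husc htop hne ψ hψ M hM Y hY hC
  by_contra hcon
  rw [not_le] at hcon
  obtain ⟨V, hV1, hV2, hV3⟩ := Set.exists_isOpen_lt_of_lt _ _ hcon
  have hG : IsOpen (V ∩ ball x0 R) := hV2.inter isOpen_ball
  have hGv : volume (V ∩ ball x0 R) < volume Y := (measure_mono inter_subset_left).trans_lt hV3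
  have hst := fun j => step h2 h3 hR hψ hM hG inter_subset_right hGv j
  choose y hy x hx hxG hmax using hst
  have hcpt : IsCompact ((closedBall x0 R \ (V ∩ ball x0 R)) ×ˢ Y) :=
    ((isCompact_closedBall x0 R).diff hG).prod hY
  obtain ⟨⟨a, b⟩, ⟨⟨haK, haG⟩, hbY⟩, σ, hσ, hlim⟩ := hcpt.tendsto_subseq
    (x := fun j => (x j, y j)) (fun j => ⟨⟨hx j, hxG j⟩, hy j⟩)
  have hlimx : Tendsto (fun j => x (σ j)) atTop (𝓝 a) := (continuous_fst.tendsto (a, b)).comp hlim
  have hlimy : Tendsto (fun j => y (σ j)) atTop (𝓝 b) := (continuous_snd.tendsto (a, b)).comp hlim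
  have hac : a ∈ contact φ M (closedBall x0 R) Y := by
    refine ⟨haK, b, hbY, fun w hw => ?_⟩
    by_contra hlt
    rw [not_le] at hlt
    set s : ℝ := M / 2 * (‖w - b‖ ^ 2 - ‖a - b‖ ^ 2) with hs
    -- the value at `w` is real
    have hwbot : φ w ≠ ⊥ := by
      intro h
      rw [h] at hlt
      exact not_lt_bot hlt
    obtain ⟨p, hp⟩ : ∃ p : ℝ, φ w = p := ⟨(φ w).toReal, (EReal.coe_toReal (htop w hw) hwbot).symm⟩
    have hlt2 : φ a < ((p - s : ℝ) : EReal) := by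
      rcases eq_or_ne (φ a) ⊥ with h | h
      · rw [h]
        exact EReal.bot_lt_coe _
      · obtain ⟨q, hq⟩ : ∃ q : ℝ, φ a = q :=
          ⟨(φ a).toReal, (EReal.coe_toReal (htop a haK) h).symm⟩
        rw [hp, hq, ← EReal.coe_add, EReal.coe_lt_coe_iff] at hlt
        rw [hq, EReal.coe_lt_coe_iff]
        linarith
    obtain ⟨c, hc1, hc2⟩ := EReal.lt_iff_exists_real_btwn.mp hlt2
    rw [EReal.coe_lt_coe_iff] at hc2
    obtain ⟨r, hr, J, hJ⟩ := hψ.2.2.1 a haK c hc1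
    have hev : ∀ᶠ j in atTop, p ≤ c + M / 2 * (‖w - y (σ j)‖ ^ 2 - ‖x (σ j) - y (σ j)‖ ^ 2) := by
      have e1 : ∀ᶠ j in atTop, dist (x (σ j)) a < r :=
        (Metric.tendsto_nhds.mp hlimx) r hr
      have e2 : ∀ᶠ j in atTop, J ≤ σ j := hσ.tendsto_atTop.eventually (eventually_ge_atTop J)
      filter_upwards [e1, e2] with j h1 h2
      have h4 := hJ (σ j) h2 (x (σ j)) (hx (σ j)) h1
      have h5 := hmax (σ j) w hw
      have h6 := hψ.2.1 (σ j) w hw
      rw [hp, EReal.coe_le_coe_iff] at h6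
      linarith
    have hlim2 : Tendsto (fun j => c + M / 2 * (‖w - y (σ j)‖ ^ 2 - ‖x (σ j) - y (σ j)‖ ^ 2))
        atTop (𝓝 (c + s)) := by
      refine tendsto_const_nhds.add (Tendsto.const_mul _ (Tendsto.sub ?_ ?_))
      · exact ((tendsto_const_nhds.sub hlimy).norm.pow 2)
      · exact ((hlimx.sub hlimy).norm.pow 2)
    have := ge_of_tendsto hlim2 hev
    linarith
  exact haG ⟨hV1 hac, hC hac⟩

end Pool.Agent.H522R3.UT

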