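import Pool.Agent.H522R3.UT.Stmts

set_option autoImplicit false

open Set Filter Topology Metric MeasureTheory

namespace Pool.Agent.H522R3.UT.T8b

theorem bdd {n : ℕ} {φ : Cn n → EReal} {K : Set (Cn n)} (hK : IsCompact K)
    (husc : UpperSemicontinuousOn φ K) (htop : ∀ z ∈ K, φ z ≠ ⊤) :
    ∃ C : ℝ, ∀ z ∈ K, φ z ≤ (C : EReal) := by
  rcases K.eq_empty_or_nonempty with rfl | hne
  · exact ⟨0, by simp⟩
  · obtain ⟨a, ha, hmax⟩ := husc.exists_isMaxOn hne hK
    rcases eq_or_ne (φ a) ⊥ with hb | hb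
    · exact ⟨0, fun z hz => ((hmax hz : φ z ≤ φ a).trans (hb ▸ bot_le))⟩
    · refine ⟨(φ a).toReal, fun z hz => ?_⟩
      rw [EReal.coe_toReal (htop a ha) hb]
      exact hmax hz

theorem step {n : ℕ} {Ω : Set (Cn n)} {φ : Cn n → EReal} (h : IsPSH Ω φ) {x w0 : Cn n} {ρ δ : ℝ}
    (hδ : 0 < δ) (hball : closedBall x (3 * ρ) ⊆ Ω) (hw0 : dist w0 x < ρ)
    (hbot : ∀ z ∈ ball w0 δ, φ z = ⊥) {x1 : Cn n} (hx1 : dist x1 x < ρ) : φ x1 = ⊥ := by
  obtain ⟨htop, husc, hmean⟩ := h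
  obtain ⟨C, hC⟩ := bdd (isCompact_closedBall x (3 * ρ)) (husc.mono hball)
    (fun z hz => htop z (hball hz))
  set w : Cn n := w0 - x1 with hw
  have hwn : ‖w‖ ≤ 2 * ρ := by
    have : dist w0 x1 ≤ dist w0 x + dist x x1 := dist_triangle _ _ _
    rw [dist_comm x x1] at this
    rw [hw, ← dist_eq_norm]; linarith
  have hin : ∀ ζ : ℂ, ‖ζ‖ ≤ 1 → x1 + ζ • w ∈ closedBall x (3 * ρ) := by
    intro ζ hζ
    rw [mem_closedBall, dist_eq_norm]
    have e : x1 + ζ • w - x = (x1 - x) + ζ • w := by abel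
    rw [e]
    have h1 : ‖x1 - x‖ < ρ := by rw [← dist_eq_norm]; exact hx1
    have h2 : ‖ζ • w‖ ≤ 2 * ρ := by
      rw [norm_smul]
      calc ‖ζ‖ * ‖w‖ ≤ 1 * ‖w‖ := by gcongr
        _ ≤ 2 * ρ := by linarith
    linarith [norm_add_le (x1 - x) (ζ • w)]
  have hdisc : ∀ ζ : ℂ, ‖ζ‖ ≤ 1 → x1 + ζ • w ∈ Ω := fun ζ hζ => hball (hin ζ hζ)
  have hcirc : ∀ θ : ℝ, circ x1 w θ ∈ closedBall x (3 * ρ) := by
    intro θ
    apply hin
    rw [Complex.norm_exp_ofReal_mul_I]
  have hcont : Continuous (fun θ : ℝ => circ x1 w θ) := by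
    unfold circ; fun_prop
  have h0 : circ x1 w 0 = w0 := by simp [circ, hw]
  obtain ⟨η, hη, hη2, hηb⟩ : ∃ η : ℝ, 0 < η ∧ η < 2 * Real.pi ∧
      ∀ θ : ℝ, 0 < θ → θ < η → φ (circ x1 w θ) = ⊥ := by
    have hnhds : (fun θ : ℝ => circ x1 w θ) ⁻¹' (ball w0 δ) ∈ 𝓝 (0 : ℝ) := by
      apply hcont.continuousAt
      show ball w0 δ ∈ 𝓝 (circ x1 w 0)
      rw [h0]
      exact ball_mem_nhds _ hδ
    obtain ⟨η, hη, hsub⟩ := Metric.mem_nhds_iff.1 hnhds
    refine ⟨min η Real.pi, lt_min hη Real.pi_pos, ?_, fun θ h1 h2 => ?_⟩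
    · have := min_le_right η Real.pi
      linarith [Real.pi_pos]
    · apply hbot
      have : θ ∈ ball (0 : ℝ) η := by
        rw [mem_ball, dist_zero_right, Real.norm_eq_abs, abs_of_pos h1]
        exact lt_of_lt_of_le h2 (min_le_left _ _)
      exact hsub this
  set b : ℝ → ℝ := fun θ => max 0 (θ * (η - θ)) with hbdef
  have hbc : Continuous b := by fun_prop
  have hb0 : ∀ θ, 0 ≤ b θ := fun θ => le_max_left _ _
  have hbz : ∀ θ, ¬ (0 < θ ∧ θ < η) → b θ = 0 := by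
    intro θ hθ
    apply max_eq_left
    by_cases h1 : 0 < θ
    · have h2 : η ≤ θ := by
        by_contra h3
        exact hθ ⟨h1, not_le.1 h3⟩
      exact mul_nonpos_of_nonneg_of_nonpos h1.le (by linarith)
    · exact mul_nonpos_of_nonpos_of_nonneg (not_lt.1 h1) (by linarith [not_lt.1 h1])
  have hβ : 0 < ∫ θ in (0 : ℝ)..(2 * Real.pi), b θ := by
    apply intervalIntegral.integral_pos (by positivity) hbc.continuousOn (fun θ _ => hb0 θ)
    refine ⟨η / 2, ⟨by linarith, by linarith⟩, ?_⟩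
    apply lt_max_of_lt_right
    have : η / 2 * (η - η / 2) = η ^ 2 / 4 := by ring
    rw [this]; positivity
  set β : ℝ := ∫ θ in (0 : ℝ)..(2 * Real.pi), b θ with hβdef
  have key : ∀ M : ℝ, 0 ≤ M → φ x1 ≤ (((2 * Real.pi)⁻¹ * (2 * Real.pi * C - M * β) : ℝ) : EReal) := by
    intro M hM
    have h1 := hmean x1 w hdisc (fun θ => C - M * b θ) (by fun_prop) ?_
    · have h2 : ∫ θ in (0 : ℝ)..(2 * Real.pi), (C - M * b θ) = 2 * Real.pi * C - M * β := by
        have hi : IntervalIntegrable (fun θ => M * b θ) volume 0 (2 * Real.pi) :=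
          (continuous_const.mul hbc).intervalIntegrable _ _
        rw [intervalIntegral.integral_sub (by simp) hi, intervalIntegral.integral_const_mul,
          intervalIntegral.integral_const, ← hβdef, sub_zero, smul_eq_mul]
      rw [h2] at h1
      exact h1
    · intro θ _
      by_cases hθ : 0 < θ ∧ θ < η
      · rw [hηb θ hθ.1 hθ.2]
        exact bot_le
      · show φ (circ x1 w θ) ≤ ((C - M * b θ : ℝ) : EReal)
        rw [hbz θ hθ, mul_zero, sub_zero]
        exact hC _ (hcirc θ)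
  by_contra hne
  have hx1Ω : x1 ∈ Ω := by simpa using hdisc 0 (by simp)
  have hr : φ x1 = ((φ x1).toReal : EReal) := (EReal.coe_toReal (htop x1 hx1Ω) hne).symm
  set r : ℝ := (φ x1).toReal with hrdef
  have hpi := Real.pi_pos
  have h3 := key ((2 * Real.pi * (|C| + |r| + 1)) / β) (by positivity)
  rw [hr, EReal.coe_le_coe_iff] at h3
  rw [div_mul_cancel₀ _ hβ.ne'] at h3
  have h4 : (2 * Real.pi)⁻¹ * (2 * Real.pi * C - 2 * Real.pi * (|C| + |r| + 1)) = C - (|C| + |r| + 1) := by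
    field_simp
  rw [h4] at h3
  linarith [le_abs_self C, neg_abs_le r]

theorem T8_proof : T8 := by
  intro n Ω φ hΩ hconn h hne x hx r hr
  by_contra hcon
  push Not at hcon
  -- W : points with a ball in Ω where φ = ⊥
  set W : Set (Cn n) := {z | ∃ δ : ℝ, 0 < δ ∧ ball z δ ⊆ Ω ∧ ∀ y ∈ ball z δ, φ y = ⊥} with hW
  have hWo : IsOpen W := by
    rw [Metric.isOpen_iff]
    rintro z ⟨δ, hδ, hs, hb⟩
    refine ⟨δ / 2, by positivity, fun y hy => ⟨δ / 2, by positivity, ?_, ?_⟩⟩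
    · intro u hu
      apply hs
      rw [mem_ball] at *
      linarith [dist_triangle u y z]
    · intro u hu
      apply hb
      rw [mem_ball] at *
      linarith [dist_triangle u y z]
  have hxW : x ∈ W := by
    obtain ⟨δ, hδ, hs⟩ := Metric.isOpen_iff.1 hΩ x hx
    refine ⟨min δ r, lt_min hδ hr, fun y hy => hs (ball_subset_ball (min_le_left _ _) hy),
      fun y hy => ?_⟩
    exact hcon y (ball_subset_ball (min_le_right _ _) hy)
      (hs (ball_subset_ball (min_le_left _ _) hy))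
  have hclosed : ∀ z ∈ Ω, z ∈ closure W → z ∈ W := by
    intro z hz hzc
    obtain ⟨δ, hδ, hs⟩ := Metric.isOpen_iff.1 hΩ z hz
    obtain ⟨w0, hw0, hd⟩ := Metric.mem_closure_iff.1 hzc (δ / 4) (by positivity)
    obtain ⟨δ', hδ', _, hb'⟩ := hw0
    have hball : closedBall z (3 * (δ / 4)) ⊆ Ω :=
      (closedBall_subset_ball (by linarith)).trans hs
    refine ⟨δ / 4, by positivity, fun y hy => hs (ball_subset_ball (by linarith) hy), fun y hy => ?_⟩
    exact step h hδ' hball (by rw [dist_comm]; exact hd) hb' (by rwa [mem_ball] at hy)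
  have hsub : Ω ⊆ W := by
    have := hconn.subset_of_closure_inter_subset hWo ⟨x, hx, hxW⟩ (fun z hz => hclosed z hz.2 hz.1)
    exact this
  obtain ⟨z, hz, hzne⟩ := hne
  obtain ⟨δ, hδ, _, hb⟩ := hsub hz
  exact hzne (hb z (mem_ball_self hδ))

end Pool.Agent.H522R3.UT.T8b
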