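import Pool.Agent.H522R3.UT.Stmts

set_option autoImplicit false

open Set Filter Topology Metric MeasureTheory

namespace Pool.Agent.H522R3.UT

/-- the increment of the paraboloid -/
noncomputable def incr {n : ℕ} (M : ℝ) (w : Cn n) (p : Cn n × Cn n) : ℝ :=
  M / 2 * (‖w - p.2‖ ^ 2 - ‖p.1 - p.2‖ ^ 2)

theorem incr_cont {n : ℕ} (M : ℝ) (w : Cn n) : Continuous (incr M w) := by
  unfold incr
  fun_prop

theorem T9_proof : T9 := by
  intro n Ω φ x0 R M hR hM husc htop hbot hsub Y hY
  have key : ∀ x ∈ contact φ M (closedBall x0 R) Y, φ x ≠ ⊥ := by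
    rintro x ⟨hxK, y, hy, hxy⟩ hx
    obtain ⟨w, hw, hwb⟩ := hbot
    have := hxy w hw
    rw [hx, EReal.bot_add] at this
    exact hwb (le_bot_iff.1 this)
  refine ⟨?_, ?_⟩
  · have hK : IsCompact (closedBall x0 R) := isCompact_closedBall x0 R
    let S : Set (Cn n × Cn n) := {p | p.1 ∈ closedBall x0 R ∧ p.2 ∈ Y ∧
      ∀ w ∈ closedBall x0 R, φ w ≤ φ p.1 + ((incr M w p : ℝ) : EReal)}
    have hSsub : S ⊆ closedBall x0 R ×ˢ Y := fun p hp => ⟨hp.1, hp.2.1⟩
    have hScl : IsClosed S := by
      rw [isClosed_iff_frequently]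
      intro p hp
      have h1 : p.1 ∈ closedBall x0 R := by
        have hcl : IsClosed (Prod.fst ⁻¹' closedBall x0 R : Set (Cn n × Cn n)) :=
          isClosed_closedBall.preimage continuous_fst
        exact isClosed_iff_frequently.1 hcl p (hp.mono fun q hq => hq.1)
      have h2 : p.2 ∈ Y := by
        have hcl : IsClosed (Prod.snd ⁻¹' Y : Set (Cn n × Cn n)) :=
          hY.isClosed.preimage continuous_snd
        exact isClosed_iff_frequently.1 hcl p (hp.mono fun q hq => hq.2.1)
      refine ⟨h1, h2, fun w hw => ?_⟩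
      by_contra hlt
      rw [not_le] at hlt
      obtain ⟨a, ha1, ha2⟩ := EReal.lt_iff_exists_real_btwn.1 hlt
      obtain ⟨b, hb1, hb2⟩ := EReal.lt_iff_exists_real_btwn.1 ha1
      -- φ p.1 + c < b < a < φ w
      have hba : b < a := EReal.coe_lt_coe_iff.1 hb2
      have hφ : φ p.1 < ((b - incr M w p : ℝ) : EReal) := by
        by_contra hge
        rw [not_lt] at hge
        have h3 : ((b - incr M w p : ℝ) : EReal) + ((incr M w p : ℝ) : EReal) ≤
            φ p.1 + ((incr M w p : ℝ) : EReal) := add_le_add_left hge _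
        rw [← EReal.coe_add, sub_add_cancel] at h3
        exact absurd (lt_of_le_of_lt h3 hb1) (lt_irrefl _)
      have e1 : ∀ᶠ x' in 𝓝 p.1, x' ∈ closedBall x0 R → φ x' < ((b - incr M w p : ℝ) : EReal) := by
        have := husc p.1 h1 _ hφ
        exact eventually_nhdsWithin_iff.1 this
      have e2 : ∀ᶠ q in 𝓝 p, q.1 ∈ closedBall x0 R → φ q.1 < ((b - incr M w p : ℝ) : EReal) :=
        continuous_fst.continuousAt.eventually e1
      have e3 : ∀ᶠ q in 𝓝 p, incr M w q < incr M w p + (a - b) :=
        (incr_cont M w).continuousAt.eventually_lt continuousAt_const (by linarith)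
      obtain ⟨q, hqS, hq2, hq3⟩ := (hp.and_eventually (e2.and e3)).exists
      have h4 := hqS.2.2 w hw
      have h5 : φ q.1 + ((incr M w q : ℝ) : EReal) ≤ (a : EReal) := by
        have h6 : φ q.1 + ((incr M w q : ℝ) : EReal) ≤
            ((b - incr M w p : ℝ) : EReal) + ((incr M w p + (a - b) : ℝ) : EReal) :=
          add_le_add (hq2 hqS.1).le (EReal.coe_le_coe_iff.2 hq3.le)
        refine h6.trans ?_
        rw [← EReal.coe_add, EReal.coe_le_coe_iff]
        linarith
      exact absurd (lt_of_lt_of_le ha2 (h4.trans h5)) (lt_irrefl _)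
    have hSc : IsCompact S := (hK.prod hY).of_isClosed_subset hScl hSsub
    have : contact φ M (closedBall x0 R) Y = Prod.fst '' S := by
      ext x
      constructor
      · rintro ⟨hxK, y, hy, hxy⟩
        exact ⟨(x, y), ⟨hxK, hy, hxy⟩, rfl⟩
      · rintro ⟨⟨x', y⟩, ⟨h1, h2, h3⟩, rfl⟩
        exact ⟨h1, y, h2, h3⟩
    rw [this]
    exact hSc.image continuous_fst
  · intro x hx hxb
    have hne := key x hx
    obtain ⟨hxK, y, hy, hxy⟩ := hx
    refine ⟨ball x0 R, fun w => M / 2 * ‖w - y‖ ^ 2, isOpen_ball,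
      ball_subset_closedBall.trans hsub, hxb, ?_, ?_⟩
    · have h1 : ContDiff ℝ 2 (fun w : Cn n => w - y) := contDiff_id.sub contDiff_const
      have h2 : ContDiff ℝ 2 (fun w : Cn n => ‖w - y‖ ^ 2) := h1.norm_sq ℂ
      exact (contDiff_const.mul h2).contDiffOn
    · intro w hw
      have h3 := hxy w (ball_subset_closedBall hw)
      have htx := htop x hxK
      have htw := htop w (ball_subset_closedBall hw)
      generalize hu : φ x = u at h3 hne htx ⊢
      generalize hv : φ w = v at h3 htw ⊢
      induction u with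
      | bot => exact absurd rfl hne
      | top => exact absurd rfl htx
      | coe u =>
        induction v with
        | bot => rw [EReal.bot_sub]; exact bot_le
        | top => exact absurd rfl htw
        | coe v =>
          rw [← EReal.coe_add, EReal.coe_le_coe_iff] at h3
          show ((v : ℝ) : EReal) - ((M / 2 * ‖w - y‖ ^ 2 : ℝ) : EReal) ≤
            ((u : ℝ) : EReal) - ((M / 2 * ‖x - y‖ ^ 2 : ℝ) : EReal)
          rw [← EReal.coe_sub, ← EReal.coe_sub, EReal.coe_le_coe_iff]
          nlinarith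

end Pool.Agent.H522R3.UT
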